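import Pool.Agent.Q168.SQ.Conv

/-!
# Additivity in terms of feasible matrices
-/

set_option autoImplicit false

namespace Pool.Agent.Q168.SQ

open Matrix

variable {N : Type*} [Fintype N] [DecidableEq N]
variable {M : Type*} [Fintype M] [DecidableEq M]

/-- the value set -/
def Vals (σ B : Matrix N N ℝ) : Set ℝ := {x : ℝ | ∃ C : Matrix N N ℝ, Feas σ B C ∧ x = trf hh C}

theorem vals_bdd (σ B : Matrix N N ℝ) : BddBelow (Vals σ B) := by
  refine ⟨0, ?_⟩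
  rintro x ⟨C, _, rfl⟩
  exact trf_nonneg C

/-- the base point -/
theorem feas_base {σ γ : Matrix N N ℝ} (hσ : Form σ) (h : IsCov σ γ) :
    Feas σ (γ + 1)⁻¹ (σᵀ * (γ + 1)⁻¹ * σ - (γ + 1)⁻¹) := by
  have hg : Pd (γ + 1) := (cov_psd hσ.skew h).add_one
  set B := (γ + 1)⁻¹ with hB
  have hBt : Bᵀ = B := hg.inv.1
  refine ⟨?_, ?_, ?_⟩
  · rw [transpose_sub, transpose_mul, transpose_mul, transpose_transpose, hBt, Matrix.mul_assoc]
  · rw [Matrix.mul_sub, Matrix.sub_mul]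
    have e1 : σ * (σᵀ * B * σ) = B * σ := by
      rw [Matrix.mul_assoc σᵀ, ← Matrix.mul_assoc σ, hσ.mult, Matrix.one_mul]
    have e2 : σᵀ * B * σ * σ = σ * B := by
      rw [Matrix.mul_assoc (σᵀ * B), hσ.sq, Matrix.mul_neg, Matrix.mul_one, hσ.skew, Matrix.neg_mul, neg_neg]
    rw [e1, e2]
    abel
  · have := mid_psd hσ h
    rw [← hB] at this
    have e : 1 - (2 : ℝ) • B - (σᵀ * B * σ - B) = 1 - B - σᵀ * B * σ := by
      rw [two_smul]; abel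
    rw [e]
    exact this

theorem vals_nonempty {σ γ : Matrix N N ℝ} (hσ : Form σ) (h : IsCov σ γ) :
    (Vals σ (γ + 1)⁻¹).Nonempty :=
  ⟨_, _, feas_base hσ h, rfl⟩

/-! ## reindexing -/

theorem Diag.reindex {U A : Matrix N N ℝ} {a : N → ℝ} (h : Diag U a A) (e : M ≃ N) :
    Diag (U.submatrix e e) (a ∘ e) (A.submatrix e e) := by
  refine ⟨?_, ?_⟩
  · rw [transpose_submatrix, submatrix_mul_equiv, h.orth, submatrix_one_equiv]
  · rw [h.eq, ← submatrix_mul_equiv _ _ e e e, ← submatrix_mul_equiv _ _ e e e,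
      submatrix_diagonal_equiv, transpose_submatrix]

theorem trf_reindex {A : Matrix N N ℝ} (hA : Aᵀ = A) (e : M ≃ N) (f : ℝ → ℝ) :
    trf f (A.submatrix e e) = trf f A := by
  obtain ⟨U, a, hd⟩ := exists_diag hA
  rw [trf_eq hd, trf_eq (hd.reindex e)]
  exact Equiv.sum_comp e (fun i => f (a i))

theorem Psd.reindex {A : Matrix N N ℝ} (h : Psd A) (e : M ≃ N) : Psd (A.submatrix e e) := by
  rw [← psd_iff] at h ⊢
  exact h.submatrix e

theorem Feas.reindex {σ B C : Matrix N N ℝ} (h : Feas σ B C) (e : M ≃ N) :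
    Feas (σ.submatrix e e) (B.submatrix e e) (C.submatrix e e) := by
  refine ⟨by rw [transpose_submatrix, h.1], ?_, ?_⟩
  · rw [submatrix_mul_equiv, submatrix_mul_equiv, h.2.1]
    rfl
  · have := h.2.2.reindex e
    have e1 : (1 - (2 : ℝ) • B - C).submatrix e e =
        1 - (2 : ℝ) • B.submatrix e e - C.submatrix e e := by
      rw [← submatrix_one_equiv e]
      rfl
    rwa [e1] at this

theorem vals_reindex (σ B : Matrix N N ℝ) (e : M ≃ N) :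
    Vals (σ.submatrix e e) (B.submatrix e e) = Vals σ B := by
  ext x
  constructor
  · rintro ⟨C, hC, rfl⟩
    have h := hC.reindex e.symm
    simp only [submatrix_submatrix, Equiv.self_comp_symm, submatrix_id_id] at h
    exact ⟨_, h, (trf_reindex hC.1 e.symm hh).symm⟩
  · rintro ⟨C, hC, rfl⟩
    exact ⟨_, hC.reindex e, (trf_reindex hC.1 e hh).symm⟩

/-! ## direct sums -/

theorem Psd.block {A : Matrix N N ℝ} {D : Matrix M M ℝ} (hA : Psd A) (hD : Psd D) :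
    Psd (fromBlocks A 0 0 D) := by
  refine ⟨by rw [fromBlocks_transpose, hA.1, hD.1, transpose_zero, transpose_zero], fun v => ?_⟩
  have h1 := hA.2 (v ∘ Sum.inl)
  have h2 := hD.2 (v ∘ Sum.inr)
  have h3 : v ⬝ᵥ (fromBlocks A 0 0 D) *ᵥ v =
      (v ∘ Sum.inl) ⬝ᵥ A *ᵥ (v ∘ Sum.inl) + (v ∘ Sum.inr) ⬝ᵥ D *ᵥ (v ∘ Sum.inr) := by
    rw [fromBlocks_mulVec]
    simp only [dotProduct, Fintype.sum_sum_type, Sum.elim_inl, Sum.elim_inr, zero_mulVec, add_zero,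
      zero_add, Function.comp_apply]
  rw [h3]
  exact add_nonneg h1 h2

theorem Psd.block_left {A : Matrix N N ℝ} {E : Matrix N M ℝ} {F : Matrix M N ℝ} {D : Matrix M M ℝ}
    (h : Psd (fromBlocks A E F D)) : Psd A := by
  refine ⟨?_, fun v => ?_⟩
  · have := h.1
    rw [fromBlocks_transpose] at this
    exact (fromBlocks_inj.1 this).1
  · have h1 := h.2 (Sum.elim v 0)
    rw [fromBlocks_mulVec] at h1
    simpa [dotProduct, Fintype.sum_sum_type] using h1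

theorem Psd.block_right {A : Matrix N N ℝ} {E : Matrix N M ℝ} {F : Matrix M N ℝ} {D : Matrix M M ℝ}
    (h : Psd (fromBlocks A E F D)) : Psd D := by
  refine ⟨?_, fun v => ?_⟩
  · have := h.1
    rw [fromBlocks_transpose] at this
    exact (fromBlocks_inj.1 this).2.2.2
  · have h1 := h.2 (Sum.elim 0 v)
    rw [fromBlocks_mulVec] at h1
    simpa [dotProduct, Fintype.sum_sum_type] using h1

theorem Diag.block {U A : Matrix N N ℝ} {a : N → ℝ} {V D : Matrix M M ℝ} {d : M → ℝ}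
    (hA : Diag U a A) (hD : Diag V d D) :
    Diag (fromBlocks U 0 0 V) (Sum.elim a d) (fromBlocks A 0 0 D) := by
  refine ⟨?_, ?_⟩
  · rw [fromBlocks_transpose, fromBlocks_multiply, hA.orth, hD.orth]
    simp
  · rw [← fromBlocks_diagonal, fromBlocks_transpose, fromBlocks_multiply, fromBlocks_multiply]
    simp [hA.eq, hD.eq]

theorem trf_block {A : Matrix N N ℝ} {D : Matrix M M ℝ} (hA : Aᵀ = A) (hD : Dᵀ = D) (f : ℝ → ℝ) :
    trf f (fromBlocks A 0 0 D) = trf f A + trf f D := by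
  obtain ⟨U, a, h1⟩ := exists_diag hA
  obtain ⟨V, d, h2⟩ := exists_diag hD
  rw [trf_eq h1, trf_eq h2, trf_eq (h1.block h2), Fintype.sum_sum_type]
  rfl

theorem Feas.block {σ₁ B₁ C₁ : Matrix N N ℝ} {σ₂ B₂ C₂ : Matrix M M ℝ} (h1 : Feas σ₁ B₁ C₁)
    (h2 : Feas σ₂ B₂ C₂) :
    Feas (fromBlocks σ₁ 0 0 σ₂) (fromBlocks B₁ 0 0 B₂) (fromBlocks C₁ 0 0 C₂) := by
  refine ⟨?_, ?_, ?_⟩
  · rw [fromBlocks_transpose, h1.1, h2.1, transpose_zero, transpose_zero]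
  · rw [fromBlocks_multiply, fromBlocks_multiply, fromBlocks_neg]
    simp [h1.2.1, h2.2.1]
  · have := h1.2.2.block h2.2.2
    have e : fromBlocks (1 - (2 : ℝ) • B₁ - C₁) 0 0 (1 - (2 : ℝ) • B₂ - C₂) =
        1 - (2 : ℝ) • fromBlocks B₁ 0 0 B₂ - fromBlocks C₁ 0 0 C₂ := by
      ext i j
      rcases i with i | i <;> rcases j with j | j <;> simp [Matrix.one_apply]
    rwa [e] at this

theorem Feas.unblock {σ₁ B₁ : Matrix N N ℝ} {σ₂ B₂ : Matrix M M ℝ} {C : Matrix (N ⊕ M) (N ⊕ M) ℝ}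
    (h : Feas (fromBlocks σ₁ 0 0 σ₂) (fromBlocks B₁ 0 0 B₂) C) :
    Feas σ₁ B₁ C.toBlocks₁₁ ∧ Feas σ₂ B₂ C.toBlocks₂₂ := by
  have hC : C = fromBlocks C.toBlocks₁₁ C.toBlocks₁₂ C.toBlocks₂₁ C.toBlocks₂₂ :=
    (fromBlocks_toBlocks C).symm
  obtain ⟨h1, h2, h3⟩ := h
  rw [hC] at h1 h2 h3
  rw [fromBlocks_transpose] at h1
  rw [fromBlocks_multiply, fromBlocks_multiply, fromBlocks_neg] at h2
  obtain ⟨a1, -, -, a4⟩ := fromBlocks_inj.1 h1
  obtain ⟨b1, -, -, b4⟩ := fromBlocks_inj.1 h2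
  have e : 1 - (2 : ℝ) • fromBlocks B₁ 0 0 B₂ -
      fromBlocks C.toBlocks₁₁ C.toBlocks₁₂ C.toBlocks₂₁ C.toBlocks₂₂ =
      fromBlocks (1 - (2 : ℝ) • B₁ - C.toBlocks₁₁) (- C.toBlocks₁₂) (- C.toBlocks₂₁)
        (1 - (2 : ℝ) • B₂ - C.toBlocks₂₂) := by
    ext i j
    rcases i with i | i <;> rcases j with j | j <;> simp [Matrix.one_apply]
  rw [e] at h3
  refine ⟨⟨a1, ?_, h3.block_left⟩, ⟨a4, ?_, h3.block_right⟩⟩
  · simpa using b1
  · simpa using b4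

/-- the trace function does not increase under pinching -/
theorem trf_pinch {C : Matrix (N ⊕ M) (N ⊕ M) ℝ} {W : Matrix (N ⊕ M) (N ⊕ M) ℝ} {c : N ⊕ M → ℝ}
    (hd : Diag W c C) (hc : ∀ i, c i ∈ Set.Ioo (-1 : ℝ) 1) :
    trf hh C.toBlocks₁₁ + trf hh C.toBlocks₂₂ ≤ trf hh C := by
  have hC : C = fromBlocks C.toBlocks₁₁ C.toBlocks₁₂ C.toBlocks₂₁ C.toBlocks₂₂ :=
    (fromBlocks_toBlocks C).symm
  have hs := hd.symm
  rw [hC, fromBlocks_transpose] at hs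
  obtain ⟨a1, -, -, a4⟩ := fromBlocks_inj.1 hs
  obtain ⟨U, a, h1⟩ := exists_diag a1
  obtain ⟨V, b, h2⟩ := exists_diag a4
  have hV : (fromBlocks U 0 0 V)ᵀ * fromBlocks U 0 0 V = 1 := (h1.block h2).orth
  have key := peierls hd hV hh_convex hc
  rw [trf_eq h1, trf_eq h2, trf_eq hd]
  rw [Fintype.sum_sum_type] at key
  refine le_trans (le_of_eq ?_) key
  have hW : (fromBlocks U 0 0 V)ᵀ * C * fromBlocks U 0 0 V =
      fromBlocks (diagonal a) (Uᵀ * C.toBlocks₁₂ * V) (Vᵀ * C.toBlocks₂₁ * U) (diagonal b) := by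
    conv_lhs => rw [hC]
    rw [fromBlocks_transpose, fromBlocks_multiply, fromBlocks_multiply]
    simp [h1.conj_eq, h2.conj_eq]
  rw [hW]
  simp

/-- additivity -/
theorem vals_add {σ₁ γ₁ : Matrix N N ℝ} {σ₂ γ₂ : Matrix M M ℝ} (hσ₁ : Form σ₁) (hσ₂ : Form σ₂)
    (h1 : IsCov σ₁ γ₁) (h2 : IsCov σ₂ γ₂) :
    sInf (Vals (fromBlocks σ₁ 0 0 σ₂) (fromBlocks (γ₁ + 1)⁻¹ 0 0 (γ₂ + 1)⁻¹)) =
      sInf (Vals σ₁ (γ₁ + 1)⁻¹) + sInf (Vals σ₂ (γ₂ + 1)⁻¹) := by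
  have hg1 : Pd (γ₁ + 1) := (cov_psd hσ₁.skew h1).add_one
  have hg2 : Pd (γ₂ + 1) := (cov_psd hσ₂.skew h2).add_one
  have hσ : Form (fromBlocks σ₁ 0 0 σ₂) := by
    refine ⟨?_, ?_⟩
    · rw [fromBlocks_transpose, fromBlocks_neg, hσ₁.skew, hσ₂.skew]
      simp
    · rw [fromBlocks_multiply, hσ₁.sq, hσ₂.sq, ← fromBlocks_one, fromBlocks_neg]
      simp
  have hB : Pd (fromBlocks (γ₁ + 1)⁻¹ 0 0 (γ₂ + 1)⁻¹) := by
    refine ⟨?_, fun v hv => ?_⟩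
    · rw [fromBlocks_transpose, hg1.inv.1, hg2.inv.1, transpose_zero, transpose_zero]
    · have h3 : v ⬝ᵥ (fromBlocks (γ₁ + 1)⁻¹ 0 0 (γ₂ + 1)⁻¹) *ᵥ v =
          (v ∘ Sum.inl) ⬝ᵥ (γ₁ + 1)⁻¹ *ᵥ (v ∘ Sum.inl) + (v ∘ Sum.inr) ⬝ᵥ (γ₂ + 1)⁻¹ *ᵥ (v ∘ Sum.inr) := by
        rw [fromBlocks_mulVec]
        simp only [dotProduct, Fintype.sum_sum_type, Sum.elim_inl, Sum.elim_inr, zero_mulVec, add_zero,
          zero_add, Function.comp_apply]
      rw [h3]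
      have p1 := hg1.inv.psd.2 (v ∘ Sum.inl)
      have p2 := hg2.inv.psd.2 (v ∘ Sum.inr)
      by_cases hz : v ∘ Sum.inl = 0
      · have hz2 : v ∘ Sum.inr ≠ 0 := by
          intro hz2
          apply hv
          funext i
          rcases i with i | i
          · exact congrFun hz i
          · exact congrFun hz2 i
        have := hg2.inv.2 _ hz2
        linarith
      · have := hg1.inv.2 _ hz
        linarith
  set V := Vals (fromBlocks σ₁ 0 0 σ₂) (fromBlocks (γ₁ + 1)⁻¹ 0 0 (γ₂ + 1)⁻¹) with hVdef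
  obtain ⟨x0, hx0⟩ := vals_nonempty hσ₁ h1
  obtain ⟨y0, hy0⟩ := vals_nonempty hσ₂ h2
  have hsum : ∀ x ∈ Vals σ₁ (γ₁ + 1)⁻¹, ∀ y ∈ Vals σ₂ (γ₂ + 1)⁻¹, x + y ∈ V := by
    rintro x ⟨C, hC, rfl⟩ y ⟨D, hD, rfl⟩
    exact ⟨_, hC.block hD, (trf_block hC.1 hD.1 hh).symm⟩
  apply le_antisymm
  · -- ≤
    have h : ∀ x ∈ Vals σ₁ (γ₁ + 1)⁻¹, sInf V - x ≤ sInf (Vals σ₂ (γ₂ + 1)⁻¹) := by
      intro x hx
      apply le_csInf ⟨y0, hy0⟩
      intro y hy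
      have := csInf_le (vals_bdd _ _) (hsum x hx y hy)
      linarith
    have h' : sInf V - sInf (Vals σ₂ (γ₂ + 1)⁻¹) ≤ sInf (Vals σ₁ (γ₁ + 1)⁻¹) := by
      apply le_csInf ⟨x0, hx0⟩
      intro x hx
      have := h x hx
      linarith
    linarith
  · -- ≥
    apply le_csInf ⟨_, hsum x0 hx0 y0 hy0⟩
    rintro x ⟨C, hC, rfl⟩
    obtain ⟨W, c, hd⟩ := exists_diag hC.1
    have hc := fun i => hC.mem_Ioo hσ hB hd i
    obtain ⟨u1, u2⟩ := hC.unblock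
    have k1 := csInf_le (vals_bdd σ₁ (γ₁ + 1)⁻¹) ⟨_, u1, rfl⟩
    have k2 := csInf_le (vals_bdd σ₂ (γ₂ + 1)⁻¹) ⟨_, u2, rfl⟩
    have k3 := trf_pinch hd hc
    linarith

end Pool.Agent.Q168.SQ
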