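import Pool.Agent.Q168.SQ.Ord

/-!
# The Cayley transform of positive symplectic matrices

`σ` is a real matrix with `σᵀ = -σ`, `σ² = -1`.  For a covariance matrix `γ` put `B = (γ + 1)⁻¹`.
-/

set_option autoImplicit false

namespace Pool.Agent.Q168.SQ

open Matrix
open scoped ComplexOrder

variable {N : Type*} [Fintype N] [DecidableEq N]

/-- `σ` is skew-symmetric and orthogonal -/
structure Form (σ : Matrix N N ℝ) : Prop where
  skew : σᵀ = -σ
  sq : σ * σ = -1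

theorem Form.tmul {σ : Matrix N N ℝ} (h : Form σ) : σᵀ * σ = 1 := by
  rw [h.skew, Matrix.neg_mul, h.sq, neg_neg]

theorem Form.mult {σ : Matrix N N ℝ} (h : Form σ) : σ * σᵀ = 1 := by
  rw [h.skew, Matrix.mul_neg, h.sq, neg_neg]

/-- `γ ≥ iσ`, `γ` real symmetric -/
def IsCov (σ γ : Matrix N N ℝ) : Prop :=
  γᵀ = γ ∧ (γ.map (fun x : ℝ => (x : ℂ)) - Complex.I • σ.map (fun x : ℝ => (x : ℂ))).PosSemidef

/-- the symplectic matrices -/
def Sympl (σ S : Matrix N N ℝ) : Prop := Sᵀ * σ * S = σ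

/-- the complex quadratic form -/
theorem cov_ineq {σ γ : Matrix N N ℝ} (hσ : σᵀ = -σ) (h : IsCov σ γ) (x y : N → ℝ) :
    0 ≤ x ⬝ᵥ γ *ᵥ x + y ⬝ᵥ γ *ᵥ y + 2 * (x ⬝ᵥ σ *ᵥ y) := by
  have h1 := (posSemidef_iff_dotProduct_mulVec.1 h.2).2 (fun i => (x i : ℂ) + Complex.I * (y i : ℂ))
  have hre := (Complex.le_def.1 h1).1
  rw [Complex.zero_re] at hre
  have hxx : x ⬝ᵥ σ *ᵥ x = 0 := by
    have h2 : x ⬝ᵥ σ *ᵥ x = - (x ⬝ᵥ σ *ᵥ x) := by
      conv_lhs => rw [dotProduct_mulVec, ← mulVec_transpose, hσ, neg_mulVec, neg_dotProduct, dotProduct_comm]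
    linarith
  have hyy : y ⬝ᵥ σ *ᵥ y = 0 := by
    have h2 : y ⬝ᵥ σ *ᵥ y = - (y ⬝ᵥ σ *ᵥ y) := by
      conv_lhs => rw [dotProduct_mulVec, ← mulVec_transpose, hσ, neg_mulVec, neg_dotProduct, dotProduct_comm]
    linarith
  have hyx : y ⬝ᵥ σ *ᵥ x = - (x ⬝ᵥ σ *ᵥ y) := by
    rw [dotProduct_mulVec, ← mulVec_transpose, hσ, neg_mulVec, neg_dotProduct, dotProduct_comm]
  -- expand everything as double sums
  have key : (star (fun i => (x i : ℂ) + Complex.I * (y i : ℂ)) ⬝ᵥ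
      (γ.map (fun x : ℝ => (x : ℂ)) - Complex.I • σ.map (fun x : ℝ => (x : ℂ))) *ᵥ
        (fun i => (x i : ℂ) + Complex.I * (y i : ℂ))).re =
      x ⬝ᵥ γ *ᵥ x + y ⬝ᵥ γ *ᵥ y + x ⬝ᵥ σ *ᵥ y - y ⬝ᵥ σ *ᵥ x := by
    simp only [dotProduct, mulVec, Pi.star_apply, Complex.re_sum, Finset.mul_sum, Matrix.sub_apply, Matrix.smul_apply,
      Matrix.map_apply, ← Finset.sum_add_distrib, ← Finset.sum_sub_distrib]
    refine Finset.sum_congr rfl (fun i _ => ?_)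
    refine Finset.sum_congr rfl (fun j _ => ?_)
    simp
    ring
  rw [key, hyx] at hre
  linarith

theorem cov_psd {σ γ : Matrix N N ℝ} (hσ : σᵀ = -σ) (h : IsCov σ γ) : Psd γ :=
  ⟨h.1, fun v => by
    have := cov_ineq hσ h v 0
    simpa using this⟩

/-- the key inequality: `1 - B - σᵀ B σ ≥ 0` for `B = (γ + 1)⁻¹` -/
theorem mid_psd {σ γ : Matrix N N ℝ} (hσ : Form σ) (h : IsCov σ γ) :
    Psd (1 - (γ + 1)⁻¹ - σᵀ * (γ + 1)⁻¹ * σ) := by
  have hg : Pd (γ + 1) := (cov_psd hσ.skew h).add_one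
  set B := (γ + 1)⁻¹ with hB
  refine ⟨?_, fun u => ?_⟩
  · rw [transpose_sub, transpose_sub, transpose_one, hg.inv.1, transpose_mul, transpose_mul,
      transpose_transpose, hg.inv.1, Matrix.mul_assoc]
  · rw [qf_sub, qf_sub, qf_one]
    set a := B *ᵥ u with ha
    set b := σᵀ *ᵥ (B *ᵥ (σ *ᵥ u)) with hb
    have e1 : u ⬝ᵥ (σᵀ * B * σ) *ᵥ u = u ⬝ᵥ b := by
      rw [hb, mulVec_mulVec, mulVec_mulVec, Matrix.mul_assoc]
    rw [e1]
    have ha1 : γ *ᵥ a + a = u := by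
      have : (γ + 1) *ᵥ a = u := by rw [ha, mulVec_mulVec, hg.mul_inv, one_mulVec]
      rw [add_mulVec, one_mulVec] at this
      exact this
    -- `y = σ b = B σ u`
    have hy : σ *ᵥ b = B *ᵥ (σ *ᵥ u) := by
      rw [hb, mulVec_mulVec, hσ.mult, one_mulVec]
    set y := B *ᵥ (σ *ᵥ u) with hydef
    have hy1 : γ *ᵥ y + y = σ *ᵥ u := by
      have : (γ + 1) *ᵥ y = σ *ᵥ u := by rw [hydef, mulVec_mulVec, hg.mul_inv, one_mulVec]
      rw [add_mulVec, one_mulVec] at this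
      exact this
    have hby : b = σᵀ *ᵥ y := rfl
    have h1 := cov_ineq hσ.skew h a y
    have f1 : a ⬝ᵥ γ *ᵥ a = a ⬝ᵥ u - a ⬝ᵥ a := by
      have : γ *ᵥ a = u - a := eq_sub_of_add_eq ha1
      rw [this, dotProduct_sub]
    have f2 : y ⬝ᵥ γ *ᵥ y = b ⬝ᵥ u - b ⬝ᵥ b := by
      have e2 : γ *ᵥ y = σ *ᵥ u - y := eq_sub_of_add_eq hy1
      rw [e2, dotProduct_sub]
      congr 1
      · rw [dotProduct_mulVec, ← mulVec_transpose, ← hby]
      · rw [hby]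
        have : (σᵀ *ᵥ y) ⬝ᵥ (σᵀ *ᵥ y) = y ⬝ᵥ ((σ * σᵀ) *ᵥ y) := by
          rw [← mulVec_mulVec, dotProduct_mulVec y, ← mulVec_transpose]
        rw [this, hσ.mult, one_mulVec]
    have f3 : a ⬝ᵥ σ *ᵥ y = - (a ⬝ᵥ b) := by
      rw [hby, hσ.skew, neg_mulVec, dotProduct_neg, neg_neg]
    rw [f1, f2, f3] at h1
    have g1 : 0 ≤ (u - (a + b)) ⬝ᵥ (u - (a + b)) := dot_self_nonneg _
    have g2 : (u - (a + b)) ⬝ᵥ (u - (a + b)) = u ⬝ᵥ u - 2 * (a ⬝ᵥ u) - 2 * (b ⬝ᵥ u) + a ⬝ᵥ a +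
        2 * (a ⬝ᵥ b) + b ⬝ᵥ b := by
      simp only [sub_dotProduct, dotProduct_sub, add_dotProduct, dotProduct_add]
      rw [dotProduct_comm u a, dotProduct_comm u b, dotProduct_comm b a]
      ring
    rw [dotProduct_comm u a, dotProduct_comm u b]
    linarith

/-- the feasible set in terms of the Cayley transforms -/
def Feas (σ B C : Matrix N N ℝ) : Prop := Cᵀ = C ∧ σ * C = -(C * σ) ∧ Psd (1 - (2 : ℝ) • B - C)

theorem Form.inv_eq {σ S : Matrix N N ℝ} (h : Form σ) (hS : Sympl σ S) : S * σ * Sᵀ = σ := by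
  have h1 : (-(σ * Sᵀ * σ)) * S = 1 := by
    have : σ * (Sᵀ * σ * S) = -1 := by rw [hS]; exact h.sq
    rw [Matrix.neg_mul]
    have e : σ * Sᵀ * σ * S = σ * (Sᵀ * σ * S) := by simp only [Matrix.mul_assoc]
    rw [e, this, neg_neg]
  have h2 : S * (-(σ * Sᵀ * σ)) = 1 := mul_eq_one_comm.1 h1
  have h3 : S * σ * Sᵀ * σ = -1 := by
    rw [Matrix.mul_neg] at h2
    have : S * (σ * Sᵀ * σ) = S * σ * Sᵀ * σ := by simp only [Matrix.mul_assoc]
    rw [← this]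
    exact neg_eq_iff_eq_neg.1 h2
  calc S * σ * Sᵀ = S * σ * Sᵀ * (σ * σᵀ) := by rw [h.mult, Matrix.mul_one]
    _ = (S * σ * Sᵀ * σ) * σᵀ := by simp only [Matrix.mul_assoc]
    _ = σ := by rw [h3, h.skew, Matrix.neg_mul, Matrix.one_mul, neg_neg]

theorem Form.pp {σ S : Matrix N N ℝ} (h : Form σ) (hS : Sympl σ S) :
    (Sᵀ * S) * σ * (Sᵀ * S) = σ := by
  calc (Sᵀ * S) * σ * (Sᵀ * S) = Sᵀ * (S * σ * Sᵀ) * S := by simp only [Matrix.mul_assoc]
    _ = σ := by rw [h.inv_eq hS]; exact hS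

theorem Form.unit {σ S : Matrix N N ℝ} (h : Form σ) (hS : Sympl σ S) : ∃ T, T * S = 1 := by
  refine ⟨-(σ * Sᵀ * σ), ?_⟩
  have : σ * (Sᵀ * σ * S) = -1 := by rw [hS]; exact h.sq
  rw [Matrix.neg_mul]
  have e : σ * Sᵀ * σ * S = σ * (Sᵀ * σ * S) := by simp only [Matrix.mul_assoc]
  rw [e, this, neg_neg]

theorem Form.pd {σ S : Matrix N N ℝ} (h : Form σ) (hS : Sympl σ S) : Pd (Sᵀ * S) := by
  obtain ⟨T, hT⟩ := h.unit hS
  refine ⟨by rw [transpose_mul, transpose_transpose], fun v hv => ?_⟩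
  have := qf_conj (1 : Matrix N N ℝ) S v
  rw [Matrix.mul_one, one_mulVec] at this
  rw [this]
  apply dot_self_pos
  intro h0
  apply hv
  have h1 : T *ᵥ (S *ᵥ v) = v := by rw [mulVec_mulVec, hT, one_mulVec]
  rw [← h1, h0, mulVec_zero]

/-- from symplectic matrices to the feasible set -/
theorem feas_of_sympl {σ γ S : Matrix N N ℝ} (hσ : Form σ) (h : IsCov σ γ) (hS : Sympl σ S)
    (hle : Psd (γ - Sᵀ * S)) : Feas σ (γ + 1)⁻¹ (1 - (2 : ℝ) • (Sᵀ * S + 1)⁻¹) := by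
  set P := Sᵀ * S with hP
  have hPd : Pd P := hσ.pd hS
  have hP1 : Pd (P + 1) := hPd.psd.add_one
  have hg : Pd (γ + 1) := (cov_psd hσ.skew h).add_one
  refine ⟨by rw [transpose_sub, transpose_smul, transpose_one, hP1.inv.1], ?_, ?_⟩
  · set Q := (P + 1)⁻¹ with hQ
    have key : σ * Q + Q * σ = σ := by
      have e1 : (P + 1) * (σ * Q + Q * σ) * (P + 1) = (P + 1) * σ * (P + 1) := by
        calc (P + 1) * (σ * Q + Q * σ) * (P + 1)
            = (P + 1) * σ * (Q * (P + 1)) + ((P + 1) * Q) * σ * (P + 1) := by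
              rw [Matrix.mul_add (P + 1) (σ * Q) (Q * σ), Matrix.add_mul _ _ (P + 1)]
              simp only [Matrix.mul_assoc]
          _ = (P + 1) * σ + σ * (P + 1) := by
              rw [hP1.inv_mul, hP1.mul_inv, Matrix.mul_one, Matrix.one_mul]
          _ = (P + 1) * σ * (P + 1) := by
              have := hσ.pp hS
              rw [← hP] at this
              simp only [Matrix.add_mul, Matrix.mul_add, Matrix.one_mul, Matrix.mul_one]
              rw [this]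
              abel
      calc σ * Q + Q * σ = Q * ((P + 1) * (σ * Q + Q * σ) * (P + 1)) * Q := by
            have : Q * ((P + 1) * (σ * Q + Q * σ) * (P + 1)) * Q =
              (Q * (P + 1)) * (σ * Q + Q * σ) * ((P + 1) * Q) := by simp only [Matrix.mul_assoc]
            rw [this, hP1.inv_mul, hP1.mul_inv, Matrix.mul_one, Matrix.one_mul]
        _ = Q * ((P + 1) * σ * (P + 1)) * Q := by rw [e1]
        _ = (Q * (P + 1)) * σ * ((P + 1) * Q) := by simp only [Matrix.mul_assoc]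
        _ = σ := by rw [hP1.inv_mul, hP1.mul_inv, Matrix.mul_one, Matrix.one_mul]
    rw [Matrix.mul_sub, Matrix.sub_mul, Matrix.mul_one, Matrix.one_mul, Matrix.mul_smul, Matrix.smul_mul]
    have e2 : σ * Q = σ - Q * σ := eq_sub_of_add_eq key
    rw [e2, smul_sub, two_smul ℝ σ]
    abel
  · have h1 : Psd ((P + 1)⁻¹ - (γ + 1)⁻¹) := by
      apply inv_anti hP1 hg
      have : γ + 1 - (P + 1) = γ - P := by abel
      rw [this]
      exact hle
    have h2 := h1.smul (c := 2) (by norm_num)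
    have h3 : (2 : ℝ) • ((P + 1)⁻¹ - (γ + 1)⁻¹) =
        1 - (2 : ℝ) • (γ + 1)⁻¹ - (1 - (2 : ℝ) • (P + 1)⁻¹) := by
      rw [smul_sub]; abel
    rw [← h3]
    exact h2

end Pool.Agent.Q168.SQ
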