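import Pool.Agent.Q168.SQ.Add

/-!
# Direct sums of covariance matrices
-/

set_option autoImplicit false

namespace Pool.Agent.Q168.SQ

open Matrix
open scoped ComplexOrder

variable {N : Type*} [Fintype N] [DecidableEq N]
variable {M : Type*} [Fintype M] [DecidableEq M]

omit [DecidableEq N] [DecidableEq M] in
theorem psd_blockC {A : Matrix N N ℂ} {D : Matrix M M ℂ} (hA : A.PosSemidef) (hD : D.PosSemidef) :
    (fromBlocks A 0 0 D).PosSemidef := by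
  rw [posSemidef_iff_dotProduct_mulVec]
  constructor
  · rw [IsHermitian, fromBlocks_conjTranspose, hA.1, hD.1, conjTranspose_zero, conjTranspose_zero]
  · intro v
    have h1 := (posSemidef_iff_dotProduct_mulVec.1 hA).2 (v ∘ Sum.inl)
    have h2 := (posSemidef_iff_dotProduct_mulVec.1 hD).2 (v ∘ Sum.inr)
    have h3 : star v ⬝ᵥ (fromBlocks A 0 0 D) *ᵥ v =
        star (v ∘ Sum.inl) ⬝ᵥ A *ᵥ (v ∘ Sum.inl) + star (v ∘ Sum.inr) ⬝ᵥ D *ᵥ (v ∘ Sum.inr) := by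
      rw [fromBlocks_mulVec]
      simp only [dotProduct, Fintype.sum_sum_type, Sum.elim_inl, Sum.elim_inr, zero_mulVec, add_zero,
        zero_add, Function.comp_apply, Pi.star_apply]
    rw [h3]
    exact add_nonneg h1 h2

omit [Fintype N] [DecidableEq N] [Fintype M] [DecidableEq M] in
theorem cov_block {σ₁ γ₁ : Matrix N N ℝ} {σ₂ γ₂ : Matrix M M ℝ} (h1 : IsCov σ₁ γ₁)
    (h2 : IsCov σ₂ γ₂) [Fintype N] [Fintype M] :
    IsCov (fromBlocks σ₁ 0 0 σ₂) (fromBlocks γ₁ 0 0 γ₂) := by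
  refine ⟨by rw [fromBlocks_transpose, h1.1, h2.1, transpose_zero, transpose_zero], ?_⟩
  have h3 := psd_blockC h1.2 h2.2
  have e : (fromBlocks γ₁ 0 0 γ₂).map (fun x : ℝ => (x : ℂ)) -
      Complex.I • (fromBlocks σ₁ 0 0 σ₂).map (fun x : ℝ => (x : ℂ)) =
      fromBlocks (γ₁.map (fun x : ℝ => (x : ℂ)) - Complex.I • σ₁.map (fun x : ℝ => (x : ℂ))) 0 0
        (γ₂.map (fun x : ℝ => (x : ℂ)) - Complex.I • σ₂.map (fun x : ℝ => (x : ℂ))) := by
    ext i j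
    rcases i with i | i <;> rcases j with j | j <;> simp
  rw [e]
  exact h3

omit [Fintype N] [DecidableEq N] [Fintype M] [DecidableEq M] in
theorem cov_submatrix {σ γ : Matrix N N ℝ} (h : IsCov σ γ) (e : M ≃ N) :
    IsCov (σ.submatrix e e) (γ.submatrix e e) :=
  ⟨by rw [transpose_submatrix, h.1], h.2.submatrix e⟩

theorem inv_block {A : Matrix N N ℝ} {D : Matrix M M ℝ} (hA : Pd A) (hD : Pd D) :
    (fromBlocks A 0 0 D)⁻¹ = fromBlocks A⁻¹ 0 0 D⁻¹ := by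
  apply inv_eq_right_inv
  rw [fromBlocks_multiply, hA.mul_inv, hD.mul_inv]
  simp

/-- additivity of the infimum for a reindexed direct sum -/
theorem additive {K : Type*} [Fintype K] [DecidableEq K] {m n : ℕ} (hN : Fintype.card N = m + m)
    (hM : Fintype.card M = n + n) (hK : Fintype.card K = (m + n) + (m + n))
    {σ₁ γ₁ : Matrix N N ℝ} {σ₂ γ₂ : Matrix M M ℝ} {σ γ : Matrix K K ℝ} (e : K ≃ N ⊕ M)
    (hσ₁ : Form σ₁) (hσ₂ : Form σ₂) (h1 : IsCov σ₁ γ₁) (h2 : IsCov σ₂ γ₂)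
    (hσ : σ = (fromBlocks σ₁ 0 0 σ₂).submatrix e e) (hγ : γ = (fromBlocks γ₁ 0 0 γ₂).submatrix e e) :
    sInf {x : ℝ | ∃ S : Matrix K K ℝ, Sympl σ S ∧ (γ - Sᵀ * S).PosSemidef ∧
      x = ∑ i ∈ Finset.range (m + n), Real.log ((toEuclideanLin S).singularValues i)} =
    sInf {x : ℝ | ∃ S : Matrix N N ℝ, Sympl σ₁ S ∧ (γ₁ - Sᵀ * S).PosSemidef ∧
      x = ∑ i ∈ Finset.range m, Real.log ((toEuclideanLin S).singularValues i)} +
    sInf {x : ℝ | ∃ S : Matrix M M ℝ, Sympl σ₂ S ∧ (γ₂ - Sᵀ * S).PosSemidef ∧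
      x = ∑ i ∈ Finset.range n, Real.log ((toEuclideanLin S).singularValues i)} := by
  have hg1 : Pd (γ₁ + 1) := (cov_psd hσ₁.skew h1).add_one
  have hg2 : Pd (γ₂ + 1) := (cov_psd hσ₂.skew h2).add_one
  have hσF : Form (fromBlocks σ₁ 0 0 σ₂) := by
    refine ⟨?_, ?_⟩
    · rw [fromBlocks_transpose, fromBlocks_neg, hσ₁.skew, hσ₂.skew]
      simp
    · rw [fromBlocks_multiply, hσ₁.sq, hσ₂.sq, ← fromBlocks_one, fromBlocks_neg]
      simp
  have hσ' : Form σ := by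
    rw [hσ]
    refine ⟨?_, ?_⟩
    · rw [transpose_submatrix, hσF.skew]
      rfl
    · rw [submatrix_mul_equiv, hσF.sq, ← submatrix_one_equiv e]
      rfl
  have hcov : IsCov σ γ := by
    rw [hσ, hγ]
    exact cov_submatrix (cov_block h1 h2) e
  rw [set_eq hK hσ' hcov, set_eq hN hσ₁ h1, set_eq hM hσ₂ h2]
  have e1 : (γ + 1)⁻¹ = (fromBlocks (γ₁ + 1)⁻¹ 0 0 (γ₂ + 1)⁻¹).submatrix e e := by
    have e2 : γ + 1 = (fromBlocks (γ₁ + 1) 0 0 (γ₂ + 1)).submatrix e e := by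
      have e3 : fromBlocks (γ₁ + 1) 0 0 (γ₂ + 1) = fromBlocks γ₁ 0 0 γ₂ + 1 := by
        rw [← fromBlocks_one, fromBlocks_add]
        simp
      rw [e3, hγ, ← submatrix_one_equiv e]
      rfl
    rw [e2, inv_submatrix_equiv, inv_block hg1 hg2]
  rw [e1, hσ]
  have h3 := vals_add hσ₁ hσ₂ h1 h2
  have h4 := vals_reindex (fromBlocks σ₁ 0 0 σ₂) (fromBlocks (γ₁ + 1)⁻¹ 0 0 (γ₂ + 1)⁻¹) e
  rw [← h4] at h3
  exact h3

/-- the infimum is a true infimum -/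
theorem isGLB {n : ℕ} (hN : Fintype.card N = n + n) {σ γ : Matrix N N ℝ} (hσ : Form σ)
    (h : IsCov σ γ) :
    IsGLB {x : ℝ | ∃ S : Matrix N N ℝ, Sympl σ S ∧ (γ - Sᵀ * S).PosSemidef ∧
      x = ∑ i ∈ Finset.range n, Real.log ((toEuclideanLin S).singularValues i)}
    (sInf {x : ℝ | ∃ S : Matrix N N ℝ, Sympl σ S ∧ (γ - Sᵀ * S).PosSemidef ∧
      x = ∑ i ∈ Finset.range n, Real.log ((toEuclideanLin S).singularValues i)}) := by
  rw [set_eq hN hσ h]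
  exact isGLB_csInf (vals_nonempty hσ h) (vals_bdd _ _)

end Pool.Agent.Q168.SQ
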