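import Pool.Agent.Q168.SQ.Para
import Pool.Agent.Q168.SQ.Sum

/-!
# Continuity of the infimum
-/

set_option autoImplicit false

namespace Pool.Agent.Q168.SQ

open Matrix Topology Filter

variable {N : Type*} [Fintype N] [DecidableEq N]

theorem KK_compact (σ : Matrix N N ℝ) : IsCompact (KK σ) := by
  have hbox : IsCompact (Set.pi Set.univ (fun _ : N => Set.pi Set.univ (fun _ : N => Set.Icc (-1 : ℝ) 1))) :=
    isCompact_univ_pi (fun _ => isCompact_univ_pi (fun _ => isCompact_Icc))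
  have hqf : ∀ v : N → ℝ, Continuous (fun K : Matrix N N ℝ => v ⬝ᵥ K *ᵥ v) := by
    intro v
    fun_prop
  have hclosed : IsClosed (KK σ) := by
    have h1 : IsClosed {K : Matrix N N ℝ | Kᵀ = K} :=
      isClosed_eq continuous_id.matrix_transpose continuous_id
    have h2 : IsClosed {K : Matrix N N ℝ | σ * K = -(K * σ)} :=
      isClosed_eq (continuous_const.matrix_mul continuous_id) (continuous_id.matrix_mul continuous_const).neg
    have h3 : IsClosed {K : Matrix N N ℝ | ∀ v : N → ℝ, 0 ≤ v ⬝ᵥ (1 - K) *ᵥ v} := by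
      rw [Set.ofPred_forall]
      apply isClosed_iInter
      intro v
      apply isClosed_le continuous_const
      simp only [qf_sub]
      exact continuous_const.sub (hqf v)
    have h4 : IsClosed {K : Matrix N N ℝ | ∀ v : N → ℝ, 0 ≤ v ⬝ᵥ (1 + K) *ᵥ v} := by
      rw [Set.ofPred_forall]
      apply isClosed_iInter
      intro v
      apply isClosed_le continuous_const
      simp only [qf_add]
      exact continuous_const.add (hqf v)
    have h5 : KK σ = {K : Matrix N N ℝ | Kᵀ = K} ∩ ({K : Matrix N N ℝ | σ * K = -(K * σ)} ∩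
        ({K : Matrix N N ℝ | ∀ v : N → ℝ, 0 ≤ v ⬝ᵥ (1 - K) *ᵥ v} ∩
          {K : Matrix N N ℝ | ∀ v : N → ℝ, 0 ≤ v ⬝ᵥ (1 + K) *ᵥ v})) := by
      ext K
      constructor
      · rintro ⟨k1, k2, k3, k4⟩
        exact ⟨k1, k2, k3.2, k4.2⟩
      · rintro ⟨k1, k2, k3, k4⟩
        refine ⟨k1, k2, ⟨?_, k3⟩, ⟨?_, k4⟩⟩
        · rw [transpose_sub, transpose_one, k1]
        · rw [transpose_add, transpose_one, k1]
    rw [h5]
    exact h1.inter (h2.inter (h3.inter h4))
  refine IsCompact.of_isClosed_subset (hbox : IsCompact (X := Matrix N N ℝ) _) hclosed ?_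
  rintro K ⟨k1, k2, k3, k4⟩
  obtain ⟨U, a, hd⟩ := exists_diag k1
  have ha : ∀ k, |a k| ≤ 1 := by
    intro k
    have e1 := k3.2 (fun i => U i k)
    have e2 := k4.2 (fun i => U i k)
    rw [qf_sub, qf_one, hd.mulVec_col k, dotProduct_smul, hd.col_dot k, smul_eq_mul] at e1
    rw [qf_add, qf_one, hd.mulVec_col k, dotProduct_smul, hd.col_dot k, smul_eq_mul] at e2
    rw [abs_le]
    constructor <;> linarith
  intro i _ j _
  exact abs_le.1 (hd.entry_le ha i j)

/-- the inverse is continuous on the set of covariance matrices -/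
theorem inv_cont {σ : Matrix N N ℝ} (hσ : Form σ) :
    Continuous (fun γ : {γ : Matrix N N ℝ // IsCov σ γ} => (γ.1 + 1)⁻¹) := by
  have h1 : Continuous (fun γ : {γ : Matrix N N ℝ // IsCov σ γ} => γ.1 + 1) :=
    continuous_subtype_val.add continuous_const
  have h2 : Continuous (fun γ : {γ : Matrix N N ℝ // IsCov σ γ} => (γ.1 + 1).det) := h1.matrix_det
  have h3 : ∀ γ : {γ : Matrix N N ℝ // IsCov σ γ}, (γ.1 + 1).det ≠ 0 := by
    intro γ
    exact ((cov_psd hσ.skew γ.2).add_one.isUnit_det).ne_zero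
  have h4 : (fun γ : {γ : Matrix N N ℝ // IsCov σ γ} => (γ.1 + 1)⁻¹) =
      fun γ => ((γ.1 + 1).det)⁻¹ • (γ.1 + 1).adjugate := by
    funext γ
    rw [Matrix.inv_def, Ring.inverse_eq_inv']
  rw [h4]
  exact (h2.inv₀ h3).smul h1.matrix_adjugate

/-- **continuity** of the infimum of the value set -/
theorem cont_inf {σ : Matrix N N ℝ} (hσ : Form σ) :
    Continuous (fun γ : {γ : Matrix N N ℝ // IsCov σ γ} => sInf (Vals σ (γ.1 + 1)⁻¹)) := by
  classical
  have hBc := inv_cont hσ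
  have hBt : ∀ γ : {γ : Matrix N N ℝ // IsCov σ γ}, ((γ.1 + 1)⁻¹)ᵀ = (γ.1 + 1)⁻¹ := fun γ =>
    (cov_psd hσ.skew γ.2).add_one.inv.1
  have hM : ∀ γ : {γ : Matrix N N ℝ // IsCov σ γ}, Psd (slack σ (γ.1 + 1)⁻¹) := fun γ =>
    mid_psd hσ γ.2
  have hslack : Continuous (fun γ : {γ : Matrix N N ℝ // IsCov σ γ} => slack σ (γ.1 + 1)⁻¹) := by
    unfold slack
    exact (continuous_const.sub hBc).sub ((continuous_const.matrix_mul hBc).matrix_mul continuous_const)
  have hbase : Continuous (fun γ : {γ : Matrix N N ℝ // IsCov σ γ} => base σ (γ.1 + 1)⁻¹) := by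
    unfold base
    exact ((continuous_const.matrix_mul hBc).matrix_mul continuous_const).sub hBc
  have hrt : Continuous (fun γ : {γ : Matrix N N ℝ // IsCov σ γ} => rt (slack σ (γ.1 + 1)⁻¹)) :=
    rt_cont.comp_continuous hslack hM
  have : CompactSpace (KK σ) := isCompact_iff_compactSpace.1 (KK_compact σ)
  let X : {γ : Matrix N N ℝ // IsCov σ γ} → KK σ → Matrix N N ℝ := fun γ K =>
    base σ (γ.1 + 1)⁻¹ + rt (slack σ (γ.1 + 1)⁻¹) * K.1 * rt (slack σ (γ.1 + 1)⁻¹)
  have hXc : Continuous (fun p : {γ : Matrix N N ℝ // IsCov σ γ} × KK σ => X p.1 p.2) := by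
    have c1 := hbase.comp (continuous_fst (X := {γ : Matrix N N ℝ // IsCov σ γ}) (Y := KK σ))
    have c2 := hrt.comp (continuous_fst (X := {γ : Matrix N N ℝ // IsCov σ γ}) (Y := KK σ))
    have c3 : Continuous (fun p : {γ : Matrix N N ℝ // IsCov σ γ} × KK σ => p.2.1) :=
      continuous_subtype_val.comp continuous_snd
    exact c1.add ((c2.matrix_mul c3).matrix_mul c2)
  have hfeas : ∀ γ K, Feas σ (γ.1 + 1)⁻¹ (X γ K) := fun γ K =>
    feas_of_par hσ (hBt γ) (hM γ) K.2
  have hXom : ∀ p : {γ : Matrix N N ℝ // IsCov σ γ} × KK σ, X p.1 p.2 ∈ Om N := by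
    rintro ⟨γ, K⟩
    have hf := hfeas γ K
    obtain ⟨U, c, hd⟩ := exists_diag hf.1
    exact om_of_eig hd (fun i => hf.mem_Ioo hσ (cov_psd hσ.skew γ.2).add_one.inv hd i)
  have hf : Continuous (fun p : {γ : Matrix N N ℝ // IsCov σ γ} × KK σ => Ph (X p.1 p.2)) :=
    ph_cont.comp_continuous hXc hXom
  have key := IsCompact.continuous_sInf (K := (Set.univ : Set (KK σ))) isCompact_univ
    (f := fun γ K => Ph (X γ K)) hf
  have heq : ∀ γ : {γ : Matrix N N ℝ // IsCov σ γ},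
      Vals σ (γ.1 + 1)⁻¹ = (fun K => Ph (X γ K)) '' (Set.univ : Set (KK σ)) := by
    intro γ
    ext x
    constructor
    · rintro ⟨C, hC, rfl⟩
      obtain ⟨K, hK, hCK⟩ := par_of_feas hσ (hBt γ) (hM γ) hC
      refine ⟨⟨K, hK⟩, Set.mem_univ _, ?_⟩
      show Ph (base σ (γ.1 + 1)⁻¹ + rt (slack σ (γ.1 + 1)⁻¹) * K * rt (slack σ (γ.1 + 1)⁻¹)) = _
      rw [← hCK]
      unfold Ph
      rw [symm_of hC.1]
    · rintro ⟨K, -, rfl⟩
      refine ⟨X γ K, hfeas γ K, ?_⟩
      show Ph (X γ K) = _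
      unfold Ph
      rw [symm_of (hfeas γ K).1]
  simp only [heq]
  exact key

/-- continuity of the squeezing measure -/
theorem cont_measure {n : ℕ} (hN : Fintype.card N = n + n) {σ : Matrix N N ℝ} (hσ : Form σ) :
    ContinuousOn (fun γ : Matrix N N ℝ => sInf {x : ℝ | ∃ S : Matrix N N ℝ, Sympl σ S ∧
      (γ - Sᵀ * S).PosSemidef ∧
      x = ∑ i ∈ Finset.range n, Real.log ((toEuclideanLin S).singularValues i)})
      {γ | IsCov σ γ} := by
  rw [continuousOn_iff_continuous_domRestrict]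
  have h := cont_inf hσ
  refine h.congr (fun γ => ?_)
  show _ = sInf _
  rw [set_eq hN hσ γ.2]
  rfl

end Pool.Agent.Q168.SQ
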