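import Pool.Agent.Q168.SQ.SV

/-!
# Convexity of `hh` on `(-1, 1)`
-/

set_option autoImplicit false

namespace Pool.Agent.Q168.SQ

/-- `log (1+c) - log (1-c)` -/
noncomputable def LL (c : ℝ) : ℝ := Real.log (1 + c) - Real.log (1 - c)

theorem log_cay {c : ℝ} (hc : c ∈ Set.Ioo (-1 : ℝ) 1) : Real.log (cay c) = LL c := by
  unfold cay LL
  rw [Real.log_div (by linarith [hc.1]) (by linarith [hc.2])]

theorem LL_hasDeriv {c : ℝ} (hc : c ∈ Set.Ioo (-1 : ℝ) 1) :
    HasDerivAt LL (2 / (1 - c ^ 2)) c := by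
  have h1 : HasDerivAt (fun x : ℝ => Real.log (1 + x)) (1 / (1 + c)) c := by
    have := ((hasDerivAt_id c).const_add 1).log (by simp; linarith [hc.1])
    simpa using this
  have h2 : HasDerivAt (fun x : ℝ => Real.log (1 - x)) (-1 / (1 - c)) c := by
    have := ((hasDerivAt_id c).const_sub 1).log (by simp; linarith [hc.2])
    simpa using this
  have h3 := h1.sub h2
  have h4 : 1 / (1 + c) - -1 / (1 - c) = 2 / (1 - c ^ 2) := by
    have a1 : 1 + c ≠ 0 := by linarith [hc.1]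
    have a2 : 1 - c ≠ 0 := by linarith [hc.2]
    have a3 : 1 - c ^ 2 = (1 + c) * (1 - c) := by ring
    rw [a3]
    field_simp
    ring
  rw [h4] at h3
  exact h3

theorem LL_mono : MonotoneOn LL (Set.Ioo (-1 : ℝ) 1) := by
  intro a ha b hb hab
  unfold LL
  have h1 : Real.log (1 + a) ≤ Real.log (1 + b) := Real.log_le_log (by linarith [ha.1]) (by linarith)
  have h2 : Real.log (1 - b) ≤ Real.log (1 - a) := Real.log_le_log (by linarith [hb.2]) (by linarith)
  linarith

theorem LL_convex : ConvexOn ℝ (Set.Ico (0 : ℝ) 1) LL := by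
  apply MonotoneOn.convexOn_of_deriv (convex_Ico 0 1)
  · intro x hx
    exact (LL_hasDeriv ⟨by linarith [hx.1], hx.2⟩).continuousAt.continuousWithinAt
  · rw [interior_Ico]
    intro x hx
    exact (LL_hasDeriv ⟨by linarith [hx.1], hx.2⟩).differentiableAt.differentiableWithinAt
  · rw [interior_Ico]
    intro x hx y hy hxy
    rw [(LL_hasDeriv ⟨by linarith [hx.1], hx.2⟩).deriv, (LL_hasDeriv ⟨by linarith [hy.1], hy.2⟩).deriv]
    have h1 : 0 < 1 - y ^ 2 := by nlinarith [hy.1, hy.2]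
    apply div_le_div_of_nonneg_left (by norm_num) h1
    nlinarith [hx.1]

theorem hh_eq {c : ℝ} (hc : c ∈ Set.Ioo (-1 : ℝ) 1) : hh c = LL |c| / 4 := by
  unfold hh
  rw [log_cay hc]
  congr 1
  rcases le_total 0 c with h | h
  · rw [abs_of_nonneg h]
    apply abs_of_nonneg
    have := LL_mono (a := 0) ⟨by norm_num, by norm_num⟩ hc h
    have h0 : LL 0 = 0 := by simp [LL]
    rwa [h0] at this
  · rw [abs_of_nonpos h]
    have h1 : LL (-c) = - LL c := by
      unfold LL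
      rw [sub_neg_eq_add, ← sub_eq_add_neg]
      ring
    rw [h1]
    apply abs_of_nonpos
    have := LL_mono hc (b := 0) ⟨by norm_num, by norm_num⟩ h
    have h0 : LL 0 = 0 := by simp [LL]
    rwa [h0] at this

theorem hh_convex : ConvexOn ℝ (Set.Ioo (-1 : ℝ) 1) hh := by
  refine ⟨convex_Ioo _ _, ?_⟩
  intro x hx y hy a b ha hb hab
  have hz := (convex_Ioo (-1 : ℝ) 1) hx hy ha hb hab
  rw [hh_eq hx, hh_eq hy, hh_eq hz]
  simp only [smul_eq_mul] at hz ⊢
  have hx' : |x| ∈ Set.Ico (0 : ℝ) 1 := ⟨abs_nonneg x, abs_lt.2 hx⟩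
  have hy' : |y| ∈ Set.Ico (0 : ℝ) 1 := ⟨abs_nonneg y, abs_lt.2 hy⟩
  have h1 := LL_convex.2 hx' hy' ha hb hab
  have hw := (convex_Ico (0 : ℝ) 1) hx' hy' ha hb hab
  simp only [smul_eq_mul] at h1 hw
  have h2 : |a * x + b * y| ≤ a * |x| + b * |y| := by
    calc |a * x + b * y| ≤ |a * x| + |b * y| := abs_add_le _ _
      _ = a * |x| + b * |y| := by rw [abs_mul, abs_mul, abs_of_nonneg ha, abs_of_nonneg hb]
  have h3 := LL_mono (a := |a * x + b * y|) (b := a * |x| + b * |y|)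
    ⟨by linarith [abs_nonneg (a * x + b * y)], abs_lt.2 hz⟩
    ⟨by linarith [hw.1], hw.2⟩ h2
  linarith

theorem hh_nonneg (c : ℝ) : 0 ≤ hh c := by
  unfold hh
  positivity

theorem trf_nonneg {N : Type*} [Fintype N] [DecidableEq N] (A : Matrix N N ℝ) : 0 ≤ trf hh A := by
  unfold trf
  split_ifs
  · exact Finset.sum_nonneg (fun i _ => hh_nonneg _)
  · exact le_rfl

end Pool.Agent.Q168.SQ
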