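import Mathlib

/-!
# Orthogonal diagonalisation of real symmetric matrices, trace functions, Peierls' inequality
-/

set_option autoImplicit false

namespace Pool.Agent.Q168.SQ

open Matrix

variable {N : Type*} [Fintype N] [DecidableEq N]

/-- `A = U diag(a) Uᵀ` with `U` orthogonal -/
structure Diag (U : Matrix N N ℝ) (a : N → ℝ) (A : Matrix N N ℝ) : Prop where
  orth : Uᵀ * U = 1
  eq : A = U * diagonal a * Uᵀ

theorem Diag.orth' {U : Matrix N N ℝ} {a : N → ℝ} {A : Matrix N N ℝ} (h : Diag U a A) : U * Uᵀ = 1 :=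
  mul_eq_one_comm.1 h.orth

theorem Diag.symm {U : Matrix N N ℝ} {a : N → ℝ} {A : Matrix N N ℝ} (h : Diag U a A) : Aᵀ = A := by
  rw [h.eq, transpose_mul, transpose_mul, transpose_transpose, diagonal_transpose, Matrix.mul_assoc]

theorem herm_iff {A : Matrix N N ℝ} : A.IsHermitian ↔ Aᵀ = A := by
  rw [IsHermitian, conjTranspose_eq_transpose_of_trivial]

theorem diag_eigen {A : Matrix N N ℝ} (hA : A.IsHermitian) :
    Diag (hA.eigenvectorUnitary : Matrix N N ℝ) hA.eigenvalues A := by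
  constructor
  · have := (Matrix.mem_unitaryGroup_iff' (A := (hA.eigenvectorUnitary : Matrix N N ℝ))).1
      hA.eigenvectorUnitary.2
    rw [star_eq_conjTranspose, conjTranspose_eq_transpose_of_trivial] at this
    exact this
  · have h := hA.spectral_theorem
    rw [Unitary.conjStarAlgAut_apply] at h
    rw [star_eq_conjTranspose, conjTranspose_eq_transpose_of_trivial] at h
    exact h

theorem exists_diag {A : Matrix N N ℝ} (hA : Aᵀ = A) : ∃ U a, Diag U a A :=
  ⟨_, _, diag_eigen (herm_iff.2 hA)⟩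

theorem sum_row {W : Matrix N N ℝ} (h : W * Wᵀ = 1) (j : N) : ∑ k, W j k ^ 2 = 1 := by
  have := congrFun (congrFun h j) j
  rw [mul_apply, one_apply_eq] at this
  rw [← this]
  exact Finset.sum_congr rfl (fun k _ => by rw [transpose_apply, sq])

theorem sum_col {W : Matrix N N ℝ} (h : Wᵀ * W = 1) (k : N) : ∑ j, W j k ^ 2 = 1 := by
  have := congrFun (congrFun h k) k
  rw [mul_apply, one_apply_eq] at this
  rw [← this]
  exact Finset.sum_congr rfl (fun j _ => by rw [transpose_apply, sq])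

theorem orth_comp {U V : Matrix N N ℝ} (hU : Uᵀ * U = 1) (hV : Vᵀ * V = 1) :
    (Vᵀ * U) * (Vᵀ * U)ᵀ = 1 ∧ (Vᵀ * U)ᵀ * (Vᵀ * U) = 1 := by
  have h : (Vᵀ * U) * (Vᵀ * U)ᵀ = 1 := by
    rw [transpose_mul, transpose_transpose]
    calc Vᵀ * U * (Uᵀ * V) = Vᵀ * (U * Uᵀ) * V := by simp only [Matrix.mul_assoc]
      _ = 1 := by rw [mul_eq_one_comm.1 hU, Matrix.mul_one, hV]
  exact ⟨h, mul_eq_one_comm.1 h⟩

theorem quad_expand {U : Matrix N N ℝ} {a : N → ℝ} {A : Matrix N N ℝ} (h : Diag U a A)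
    (V : Matrix N N ℝ) (j : N) : (Vᵀ * A * V) j j = ∑ k, (Vᵀ * U) j k ^ 2 * a k := by
  have : Vᵀ * A * V = (Vᵀ * U) * diagonal a * (Vᵀ * U)ᵀ := by
    rw [h.eq, transpose_mul, transpose_transpose]
    simp only [Matrix.mul_assoc]
  rw [this, mul_apply]
  refine Finset.sum_congr rfl (fun k _ => ?_)
  rw [mul_diagonal, transpose_apply]
  ring

/-- **Peierls' inequality** -/
theorem peierls {U : Matrix N N ℝ} {a : N → ℝ} {A : Matrix N N ℝ} (h : Diag U a A)
    {V : Matrix N N ℝ} (hV : Vᵀ * V = 1) {s : Set ℝ} {f : ℝ → ℝ} (hf : ConvexOn ℝ s f)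
    (ha : ∀ k, a k ∈ s) : ∑ j, f ((Vᵀ * A * V) j j) ≤ ∑ k, f (a k) := by
  obtain ⟨h1, h2⟩ := orth_comp h.orth hV
  calc ∑ j, f ((Vᵀ * A * V) j j) ≤ ∑ j, ∑ k, (Vᵀ * U) j k ^ 2 * f (a k) := by
        refine Finset.sum_le_sum (fun j _ => ?_)
        rw [quad_expand h V j]
        have := hf.map_sum_le (t := Finset.univ) (w := fun k => (Vᵀ * U) j k ^ 2) (p := a)
          (fun k _ => sq_nonneg _) (sum_row h1 j) (fun k _ => ha k)
        simpa only [smul_eq_mul] using this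
    _ = ∑ k, f (a k) := by
        rw [Finset.sum_comm]
        refine Finset.sum_congr rfl (fun k _ => ?_)
        rw [← Finset.sum_mul, sum_col h2 k, one_mul]

/-- sums over eigenvalues do not depend on the eigenbasis -/
theorem phi_sum {U V : Matrix N N ℝ} {a b : N → ℝ} {A : Matrix N N ℝ} (h : Diag U a A)
    (h' : Diag V b A) (f : ℝ → ℝ) : ∑ k, f (a k) = ∑ k, f (b k) := by
  obtain ⟨h1, h2⟩ := orth_comp h.orth h'.orth
  have key : (Vᵀ * U) * diagonal a = diagonal b * (Vᵀ * U) := by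
    have e1 : A * U = U * diagonal a := by
      rw [h.eq, Matrix.mul_assoc, h.orth, Matrix.mul_one]
    have e2 : Vᵀ * A = diagonal b * Vᵀ := by
      rw [h'.eq, ← Matrix.mul_assoc, ← Matrix.mul_assoc, h'.orth, Matrix.one_mul]
    rw [Matrix.mul_assoc, ← e1, ← Matrix.mul_assoc, e2, Matrix.mul_assoc]
  have hjk : ∀ j k, (Vᵀ * U) j k ^ 2 * f (a k) = (Vᵀ * U) j k ^ 2 * f (b j) := by
    intro j k
    have := congrFun (congrFun key j) k
    rw [mul_diagonal, diagonal_mul] at this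
    by_cases hz : (Vᵀ * U) j k = 0
    · rw [hz]; ring
    · rw [mul_comm (b j)] at this
      rw [mul_left_cancel₀ hz this]
  calc ∑ k, f (a k) = ∑ k, ∑ j, (Vᵀ * U) j k ^ 2 * f (a k) := by
        refine Finset.sum_congr rfl (fun k _ => ?_)
        rw [← Finset.sum_mul, sum_col h2 k, one_mul]
    _ = ∑ j, ∑ k, (Vᵀ * U) j k ^ 2 * f (b j) := by
        rw [Finset.sum_comm]
        exact Finset.sum_congr rfl (fun j _ => Finset.sum_congr rfl (fun k _ => hjk j k))
    _ = ∑ k, f (b k) := by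
        refine Finset.sum_congr rfl (fun j _ => ?_)
        rw [← Finset.sum_mul, sum_row h1 j, one_mul]

/-- the trace function `tr f(A)` of a symmetric matrix -/
noncomputable def trf (f : ℝ → ℝ) (A : Matrix N N ℝ) : ℝ :=
  open Classical in if hA : A.IsHermitian then ∑ i, f (hA.eigenvalues i) else 0

theorem trf_eq {U : Matrix N N ℝ} {a : N → ℝ} {A : Matrix N N ℝ} (h : Diag U a A) (f : ℝ → ℝ) :
    trf f A = ∑ i, f (a i) := by
  have hA : A.IsHermitian := herm_iff.2 h.symm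
  unfold trf
  rw [dif_pos hA]
  exact phi_sum (diag_eigen hA) h f

/-- the quadratic form in terms of a diagonalisation -/
theorem qf_expand {U : Matrix N N ℝ} {a : N → ℝ} {A : Matrix N N ℝ} (h : Diag U a A) (v : N → ℝ) :
    v ⬝ᵥ A *ᵥ v = ∑ k, a k * (Uᵀ *ᵥ v) k ^ 2 := by
  have : v ⬝ᵥ A *ᵥ v = (Uᵀ *ᵥ v) ⬝ᵥ (diagonal a *ᵥ (Uᵀ *ᵥ v)) := by
    rw [h.eq, ← mulVec_mulVec, ← mulVec_mulVec, dotProduct_mulVec, ← mulVec_transpose]
  rw [this, dotProduct]
  refine Finset.sum_congr rfl (fun k _ => ?_)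
  rw [mulVec_diagonal]
  ring

theorem norm_expand {U : Matrix N N ℝ} (h : Uᵀ * U = 1) (v : N → ℝ) :
    v ⬝ᵥ v = ∑ k, (Uᵀ *ᵥ v) k ^ 2 := by
  have h1 : Diag U (fun _ => 1) (1 : Matrix N N ℝ) := by
    refine ⟨h, ?_⟩
    have : diagonal (fun _ : N => (1 : ℝ)) = 1 := diagonal_one
    rw [this, Matrix.mul_one, mul_eq_one_comm.1 h]
  have := qf_expand h1 v
  rw [one_mulVec] at this
  rw [this]
  simp

end Pool.Agent.Q168.SQ
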