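import Pool.Agent.Q168.SQ.Root

/-!
# Continuity of the trace function `tr hh` where the numerical radius is less than one
-/

set_option autoImplicit false

namespace Pool.Agent.Q168.SQ

open Matrix Topology Filter

variable {N : Type*} [Fintype N] [DecidableEq N]

/-- the domain: quadratic form bounded by `ρ < 1` -/
def Om (N : Type*) [Fintype N] : Set (Matrix N N ℝ) :=
  {X | ∃ ρ : ℝ, ρ < 1 ∧ 0 ≤ ρ ∧ ∀ v : N → ℝ, |v ⬝ᵥ X *ᵥ v| ≤ ρ * (v ⬝ᵥ v)}

/-- the symmetric part -/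
noncomputable def symm (X : Matrix N N ℝ) : Matrix N N ℝ := (1 / 2 : ℝ) • (X + Xᵀ)

omit [Fintype N] [DecidableEq N] in
theorem symm_t (X : Matrix N N ℝ) : (symm X)ᵀ = symm X := by
  unfold symm
  rw [transpose_smul, transpose_add, transpose_transpose, add_comm]

omit [Fintype N] [DecidableEq N] in
theorem symm_of {X : Matrix N N ℝ} (h : Xᵀ = X) : symm X = X := by
  unfold symm
  rw [h, ← two_smul ℝ X, smul_smul]
  norm_num

omit [DecidableEq N] in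
theorem qf_symm (X : Matrix N N ℝ) (v : N → ℝ) : v ⬝ᵥ symm X *ᵥ v = v ⬝ᵥ X *ᵥ v := by
  unfold symm
  rw [qf_smul, qf_add]
  have : v ⬝ᵥ Xᵀ *ᵥ v = v ⬝ᵥ X *ᵥ v := by
    rw [mulVec_transpose, dotProduct_comm, ← dotProduct_mulVec]
  rw [this]
  ring

omit [DecidableEq N] in
theorem dot_self_nonneg' (v : N → ℝ) : 0 ≤ v ⬝ᵥ v :=
  Finset.sum_nonneg (fun i _ => mul_self_nonneg (v i))

omit [DecidableEq N] in
theorem om_open : IsOpen (Om N) := by
  rw [isOpen_iff_mem_nhds]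
  rintro X ⟨ρ, hρ1, hρ0, hX⟩
  have hc : Continuous (fun Y : Matrix N N ℝ => asum (Y - X)) :=
    asum_cont.comp (continuous_id.sub continuous_const)
  have h0 : asum (X - X) = 0 := by rw [sub_self]; simp [asum]
  have hev : ∀ᶠ Y in 𝓝 X, asum (Y - X) < (1 - ρ) / 2 :=
    (hc.tendsto X).eventually_lt_const (by rw [h0]; linarith)
  filter_upwards [hev] with Y hY
  refine ⟨ρ + (1 - ρ) / 2, by linarith, by linarith, fun v => ?_⟩
  have e : v ⬝ᵥ Y *ᵥ v = v ⬝ᵥ X *ᵥ v + v ⬝ᵥ (Y - X) *ᵥ v := by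
    rw [qf_sub]; ring
  have h1 := hX v
  have h2 := qf_le_asum (Y - X) v
  have h3 := mul_le_mul_of_nonneg_right hY.le (dot_self_nonneg' v)
  rw [e]
  calc |v ⬝ᵥ X *ᵥ v + v ⬝ᵥ (Y - X) *ᵥ v| ≤ |v ⬝ᵥ X *ᵥ v| + |v ⬝ᵥ (Y - X) *ᵥ v| := abs_add_le _ _
    _ ≤ (ρ + (1 - ρ) / 2) * (v ⬝ᵥ v) := by rw [add_mul]; linarith

theorem om_eig {X U : Matrix N N ℝ} {x : N → ℝ} (hX : X ∈ Om N) (hd : Diag U x (symm X)) (k : N) :
    x k ∈ Set.Ioo (-1 : ℝ) 1 := by
  obtain ⟨ρ, h1, h0, h⟩ := hX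
  have h2 := h (fun i => U i k)
  rw [← qf_symm, hd.mulVec_col k, dotProduct_smul, hd.col_dot k, smul_eq_mul, mul_one, mul_one] at h2
  rw [abs_le] at h2
  constructor <;> linarith [h2.1, h2.2]

omit [DecidableEq N] in
theorem conj_diag_entry (V X : Matrix N N ℝ) (j : N) :
    (Vᵀ * X * V) j j = (fun i => V i j) ⬝ᵥ X *ᵥ (fun i => V i j) := by
  rw [Matrix.mul_assoc, mul_apply]
  simp only [dotProduct, mulVec, transpose_apply, mul_apply]

theorem om_conj {X V : Matrix N N ℝ} (hX : X ∈ Om N) (hV : Vᵀ * V = 1) (j : N) :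
    (Vᵀ * symm X * V) j j ∈ Set.Ioo (-1 : ℝ) 1 := by
  obtain ⟨ρ, h1, h0, h⟩ := hX
  have h2 := h (fun i => V i j)
  have h3 : (fun i => V i j) ⬝ᵥ (fun i => V i j) = 1 := by
    have := sum_col hV j
    simp only [dotProduct]
    rw [← this]
    exact Finset.sum_congr rfl (fun i _ => by rw [sq])
  rw [← qf_symm, h3, mul_one, abs_le] at h2
  rw [conj_diag_entry]
  constructor <;> linarith [h2.1, h2.2]

/-- the trace function as a function on all matrices -/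
noncomputable def Ph (X : Matrix N N ℝ) : ℝ := trf hh (symm X)

omit [DecidableEq N] in
theorem om_convex : Convex ℝ (Om N) := by
  rintro X ⟨ρ, h1, h0, h⟩ Y ⟨τ, k1, k0, k⟩ a b ha hb hab
  refine ⟨max ρ τ, max_lt h1 k1, le_max_of_le_left h0, fun v => ?_⟩
  rw [qf_add, qf_smul, qf_smul]
  have hv := dot_self_nonneg' v
  have e1 : |v ⬝ᵥ X *ᵥ v| ≤ max ρ τ * (v ⬝ᵥ v) :=
    (h v).trans (mul_le_mul_of_nonneg_right (le_max_left _ _) hv)
  have e2 : |v ⬝ᵥ Y *ᵥ v| ≤ max ρ τ * (v ⬝ᵥ v) :=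
    (k v).trans (mul_le_mul_of_nonneg_right (le_max_right _ _) hv)
  calc |a * (v ⬝ᵥ X *ᵥ v) + b * (v ⬝ᵥ Y *ᵥ v)| ≤ |a * (v ⬝ᵥ X *ᵥ v)| + |b * (v ⬝ᵥ Y *ᵥ v)| :=
        abs_add_le _ _
    _ = a * |v ⬝ᵥ X *ᵥ v| + b * |v ⬝ᵥ Y *ᵥ v| := by
        rw [abs_mul, abs_mul, abs_of_nonneg ha, abs_of_nonneg hb]
    _ ≤ a * (max ρ τ * (v ⬝ᵥ v)) + b * (max ρ τ * (v ⬝ᵥ v)) :=
        add_le_add (mul_le_mul_of_nonneg_left e1 ha) (mul_le_mul_of_nonneg_left e2 hb)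
    _ = max ρ τ * (v ⬝ᵥ v) := by rw [← add_mul, hab, one_mul]

theorem ph_convex : ConvexOn ℝ (Om N) (Ph : Matrix N N ℝ → ℝ) := by
  refine ⟨om_convex, ?_⟩
  intro X hX Y hY a b ha hb hab
  have hZ := om_convex hX hY ha hb hab
  obtain ⟨V, z, hz⟩ := exists_diag (symm_t (a • X + b • Y))
  obtain ⟨U, x, hx⟩ := exists_diag (symm_t X)
  obtain ⟨W, y, hy⟩ := exists_diag (symm_t Y)
  have hsymm : symm (a • X + b • Y) = a • symm X + b • symm Y := by
    unfold symm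
    rw [transpose_add, transpose_smul, transpose_smul]
    simp only [smul_add, smul_smul]
    rw [mul_comm a, mul_comm b]
    abel
  unfold Ph
  rw [trf_eq hz, trf_eq hx, trf_eq hy]
  simp only [smul_eq_mul]
  have p1 := peierls hx hz.orth hh_convex (fun k => om_eig hX hx k)
  have p2 := peierls hy hz.orth hh_convex (fun k => om_eig hY hy k)
  have hzj : ∀ j, z j = a * (Vᵀ * symm X * V) j j + b * (Vᵀ * symm Y * V) j j := by
    intro j
    have h1 : (Vᵀ * symm (a • X + b • Y) * V) j j = z j := by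
      rw [hz.conj_eq, diagonal_apply_eq]
    rw [← h1, hsymm, Matrix.mul_add, Matrix.add_mul, Matrix.mul_smul, Matrix.mul_smul,
      Matrix.smul_mul, Matrix.smul_mul]
    rfl
  calc ∑ j, hh (z j) ≤ ∑ j, (a * hh ((Vᵀ * symm X * V) j j) + b * hh ((Vᵀ * symm Y * V) j j)) := by
        refine Finset.sum_le_sum (fun j _ => ?_)
        rw [hzj j]
        exact hh_convex.2 (om_conj hX hz.orth j) (om_conj hY hz.orth j) ha hb hab
    _ = a * ∑ j, hh ((Vᵀ * symm X * V) j j) + b * ∑ j, hh ((Vᵀ * symm Y * V) j j) := by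
        rw [Finset.sum_add_distrib, ← Finset.mul_sum, ← Finset.mul_sum]
    _ ≤ a * ∑ k, hh (x k) + b * ∑ k, hh (y k) :=
        add_le_add (mul_le_mul_of_nonneg_left p1 ha) (mul_le_mul_of_nonneg_left p2 hb)

section
attribute [local instance] Matrix.normedAddCommGroup Matrix.normedSpace

theorem ph_cont : ContinuousOn (Ph : Matrix N N ℝ → ℝ) (Om N) :=
  ph_convex.continuousOn om_open

end

/-- a matrix with eigenvalues in `(-1, 1)` is in the domain -/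
theorem om_of_eig {X U : Matrix N N ℝ} {x : N → ℝ} (hd : Diag U x X)
    (hx : ∀ k, x k ∈ Set.Ioo (-1 : ℝ) 1) : X ∈ Om N := by
  have hρ : ∃ ρ : ℝ, ρ < 1 ∧ 0 ≤ ρ ∧ ∀ k, |x k| ≤ ρ := by
    rcases isEmpty_or_nonempty N with hN | hN
    · exact ⟨0, by norm_num, le_rfl, fun k => (hN.false k).elim⟩
    · obtain ⟨k0, hk0⟩ := Finite.exists_max (fun k => |x k|)
      exact ⟨|x k0|, abs_lt.2 (hx k0), abs_nonneg _, hk0⟩
  obtain ⟨ρ, h1, h0, h⟩ := hρ
  refine ⟨ρ, h1, h0, fun v => ?_⟩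
  rw [qf_expand hd v, norm_expand hd.orth v, Finset.mul_sum]
  refine (Finset.abs_sum_le_sum_abs _ _).trans (Finset.sum_le_sum (fun k _ => ?_))
  rw [abs_mul, abs_of_nonneg (sq_nonneg ((Uᵀ *ᵥ v) k))]
  exact mul_le_mul_of_nonneg_right (h k) (sq_nonneg _)

end Pool.Agent.Q168.SQ
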