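import Pool.Agent.Q168.SQ.Diag

/-!
# Real positive semidefinite matrices
-/

set_option autoImplicit false

namespace Pool.Agent.Q168.SQ

open Matrix

variable {N : Type*} [Fintype N] [DecidableEq N]

/-- real symmetric and positive semidefinite -/
def Psd (A : Matrix N N ℝ) : Prop := Aᵀ = A ∧ ∀ v : N → ℝ, 0 ≤ v ⬝ᵥ A *ᵥ v

/-- real symmetric and positive definite -/
def Pd (A : Matrix N N ℝ) : Prop := Aᵀ = A ∧ ∀ v : N → ℝ, v ≠ 0 → 0 < v ⬝ᵥ A *ᵥ v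

omit [DecidableEq N] in
theorem psd_iff {A : Matrix N N ℝ} : A.PosSemidef ↔ Psd A := by
  rw [posSemidef_iff_dotProduct_mulVec, Psd, herm_iff']
  simp only [star_trivial]
where
  herm_iff' {A : Matrix N N ℝ} : A.IsHermitian ↔ Aᵀ = A := by
    rw [IsHermitian, conjTranspose_eq_transpose_of_trivial]

omit [DecidableEq N] in
theorem pd_iff {A : Matrix N N ℝ} : A.PosDef ↔ Pd A := by
  rw [posDef_iff_dotProduct_mulVec, Pd, psd_iff.herm_iff']
  simp only [star_trivial]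

omit [DecidableEq N] in
theorem Pd.psd {A : Matrix N N ℝ} (h : Pd A) : Psd A :=
  psd_iff.1 (pd_iff.2 h).posSemidef

theorem Pd.isUnit_det {A : Matrix N N ℝ} (h : Pd A) : IsUnit A.det :=
  (Matrix.isUnit_iff_isUnit_det A).1 (pd_iff.2 h).isUnit

theorem Pd.inv {A : Matrix N N ℝ} (h : Pd A) : Pd A⁻¹ := pd_iff.1 (pd_iff.2 h).inv

theorem Pd.mul_inv {A : Matrix N N ℝ} (h : Pd A) : A * A⁻¹ = 1 := mul_nonsing_inv A h.isUnit_det
theorem Pd.inv_mul {A : Matrix N N ℝ} (h : Pd A) : A⁻¹ * A = 1 := nonsing_inv_mul A h.isUnit_det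

omit [DecidableEq N] in
theorem qf_add (A B : Matrix N N ℝ) (v : N → ℝ) : v ⬝ᵥ (A + B) *ᵥ v = v ⬝ᵥ A *ᵥ v + v ⬝ᵥ B *ᵥ v := by
  rw [add_mulVec, dotProduct_add]

omit [DecidableEq N] in
theorem qf_sub (A B : Matrix N N ℝ) (v : N → ℝ) : v ⬝ᵥ (A - B) *ᵥ v = v ⬝ᵥ A *ᵥ v - v ⬝ᵥ B *ᵥ v := by
  rw [sub_mulVec, dotProduct_sub]

omit [DecidableEq N] in
theorem qf_smul (c : ℝ) (A : Matrix N N ℝ) (v : N → ℝ) : v ⬝ᵥ (c • A) *ᵥ v = c * (v ⬝ᵥ A *ᵥ v) := by
  rw [smul_mulVec, dotProduct_smul, smul_eq_mul]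

theorem qf_one (v : N → ℝ) : v ⬝ᵥ (1 : Matrix N N ℝ) *ᵥ v = v ⬝ᵥ v := by rw [one_mulVec]

omit [DecidableEq N] in
theorem qf_conj (A B : Matrix N N ℝ) (v : N → ℝ) :
    v ⬝ᵥ (Bᵀ * A * B) *ᵥ v = (B *ᵥ v) ⬝ᵥ A *ᵥ (B *ᵥ v) := by
  rw [← mulVec_mulVec, ← mulVec_mulVec, dotProduct_mulVec, ← mulVec_transpose, transpose_transpose]

omit [DecidableEq N] in
/-- symmetric matrices: moving to the other side -/
theorem sym_move {A : Matrix N N ℝ} (h : Aᵀ = A) (v w : N → ℝ) : v ⬝ᵥ A *ᵥ w = w ⬝ᵥ A *ᵥ v := by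
  rw [dotProduct_mulVec, ← mulVec_transpose, h, dotProduct_comm]

omit [DecidableEq N] in
theorem Psd.add {A B : Matrix N N ℝ} (hA : Psd A) (hB : Psd B) : Psd (A + B) :=
  ⟨by rw [transpose_add, hA.1, hB.1], fun v => by rw [qf_add]; exact add_nonneg (hA.2 v) (hB.2 v)⟩

omit [DecidableEq N] in
theorem Psd.smul {A : Matrix N N ℝ} (hA : Psd A) {c : ℝ} (hc : 0 ≤ c) : Psd (c • A) :=
  ⟨by rw [transpose_smul, hA.1], fun v => by rw [qf_smul]; exact mul_nonneg hc (hA.2 v)⟩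

omit [DecidableEq N] in
theorem Psd.conj {A : Matrix N N ℝ} (hA : Psd A) (B : Matrix N N ℝ) : Psd (Bᵀ * A * B) :=
  ⟨by rw [transpose_mul, transpose_mul, transpose_transpose, hA.1, Matrix.mul_assoc],
    fun v => by rw [qf_conj]; exact hA.2 _⟩

theorem dot_self_pos {v : N → ℝ} (hv : v ≠ 0) : 0 < v ⬝ᵥ v := by
  have h1 : 0 ≤ v ⬝ᵥ v := Finset.sum_nonneg (fun i _ => mul_self_nonneg (v i))
  rcases h1.lt_or_eq with h | h
  · exact h
  · exact absurd (dotProduct_self_eq_zero.1 h.symm) hv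

omit [DecidableEq N] in
theorem dot_self_nonneg (v : N → ℝ) : 0 ≤ v ⬝ᵥ v :=
  Finset.sum_nonneg (fun i _ => mul_self_nonneg (v i))

theorem Psd.add_one {A : Matrix N N ℝ} (hA : Psd A) : Pd (A + 1) :=
  ⟨by rw [transpose_add, hA.1, transpose_one], fun v hv => by
    rw [qf_add, qf_one]
    have := hA.2 v
    have := dot_self_pos hv
    linarith⟩

omit [DecidableEq N] in
theorem Psd.add_pd {A B : Matrix N N ℝ} (hA : Psd A) (hB : Pd B) : Pd (A + B) :=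
  ⟨by rw [transpose_add, hA.1, hB.1], fun v hv => by
    rw [qf_add]
    have := hA.2 v
    have := hB.2 v hv
    linarith⟩

/-- the inverse is antitone -/
theorem inv_anti {A B : Matrix N N ℝ} (hA : Pd A) (hB : Pd B) (h : Psd (B - A)) : Psd (A⁻¹ - B⁻¹) := by
  refine ⟨by rw [transpose_sub, hA.inv.1, hB.inv.1], fun x => ?_⟩
  rw [qf_sub]
  set a := A⁻¹ *ᵥ x with ha
  set b := B⁻¹ *ᵥ x with hb
  have ha1 : A *ᵥ a = x := by rw [ha, mulVec_mulVec, hA.mul_inv, one_mulVec]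
  have hb1 : B *ᵥ b = x := by rw [hb, mulVec_mulVec, hB.mul_inv, one_mulVec]
  have h1 := hA.psd.2 (a - b)
  have h2 := h.2 b
  rw [qf_sub, hb1] at h2
  have h3 : (a - b) ⬝ᵥ A *ᵥ (a - b) = a ⬝ᵥ x - 2 * (b ⬝ᵥ x) + b ⬝ᵥ A *ᵥ b := by
    rw [mulVec_sub, dotProduct_sub, sub_dotProduct, sub_dotProduct, ha1]
    rw [sym_move hA.1 a b, ha1]
    ring
  rw [h3] at h1
  have e1 : x ⬝ᵥ a = a ⬝ᵥ x := dotProduct_comm _ _
  have e2 : x ⬝ᵥ b = b ⬝ᵥ x := dotProduct_comm _ _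
  rw [e1, e2]
  linarith

/-- eigenvalues of a positive definite matrix are positive -/
theorem Diag.pos {U : Matrix N N ℝ} {a : N → ℝ} {A : Matrix N N ℝ} (h : Diag U a A) (hA : Pd A) (i : N) :
    0 < a i := by
  have h1 : (Uᵀ * A * U) = diagonal a := by
    rw [h.eq]
    calc Uᵀ * (U * diagonal a * Uᵀ) * U = (Uᵀ * U) * diagonal a * (Uᵀ * U) := by
          simp only [Matrix.mul_assoc]
      _ = diagonal a := by rw [h.orth, Matrix.one_mul, Matrix.mul_one]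
  have h2 := qf_conj A U (Pi.single i 1)
  rw [h1] at h2
  have h3 : (Pi.single i 1 : N → ℝ) ⬝ᵥ diagonal a *ᵥ Pi.single i 1 = a i := by
    simp
  rw [h3] at h2
  rw [h2]
  apply hA.2
  intro h0
  have h4 : Uᵀ *ᵥ (U *ᵥ (Pi.single i 1 : N → ℝ)) = Pi.single i 1 := by
    rw [mulVec_mulVec, h.orth, one_mulVec]
  rw [h0, mulVec_zero] at h4
  have := congrFun h4 i
  simp at this

/-- functions of diagonalised matrices -/
theorem Diag.add_one {U : Matrix N N ℝ} {a : N → ℝ} {A : Matrix N N ℝ} (h : Diag U a A) :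
    Diag U (fun i => a i + 1) (A + 1) := by
  refine ⟨h.orth, ?_⟩
  have h1 : (1 : Matrix N N ℝ) = U * Uᵀ := h.orth'.symm
  have : diagonal (fun i => a i + 1) = diagonal a + 1 := by
    rw [← diagonal_one, diagonal_add]
  rw [this, Matrix.mul_add, Matrix.add_mul, Matrix.mul_one, ← h1, ← h.eq]

theorem Diag.affine {U : Matrix N N ℝ} {a : N → ℝ} {A : Matrix N N ℝ} (h : Diag U a A) (r s : ℝ) :
    Diag U (fun i => r + s * a i) (r • (1 : Matrix N N ℝ) + s • A) := by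
  refine ⟨h.orth, ?_⟩
  have h1 : (1 : Matrix N N ℝ) = U * Uᵀ := h.orth'.symm
  have : diagonal (fun i => r + s * a i) = r • (1 : Matrix N N ℝ) + s • diagonal a := by
    ext i j
    by_cases hij : i = j
    · subst hij; simp
    · simp [hij]
  rw [this, Matrix.mul_add, Matrix.add_mul]
  congr 1
  · rw [Matrix.mul_smul, Matrix.smul_mul, Matrix.mul_one, ← h1]
  · rw [Matrix.mul_smul, Matrix.smul_mul, ← h.eq]

theorem Diag.inv {U : Matrix N N ℝ} {a : N → ℝ} {A : Matrix N N ℝ} (h : Diag U a A)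
    (ha : ∀ i, a i ≠ 0) : Diag U (fun i => (a i)⁻¹) A⁻¹ := by
  refine ⟨h.orth, ?_⟩
  apply inv_eq_right_inv
  rw [h.eq]
  calc U * diagonal a * Uᵀ * (U * diagonal (fun i => (a i)⁻¹) * Uᵀ)
      = U * diagonal a * (Uᵀ * U) * diagonal (fun i => (a i)⁻¹) * Uᵀ := by
        simp only [Matrix.mul_assoc]
    _ = U * (diagonal a * diagonal (fun i => (a i)⁻¹)) * Uᵀ := by
        rw [h.orth, Matrix.mul_one]
        simp only [Matrix.mul_assoc]
    _ = 1 := by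
        rw [diagonal_mul_diagonal]
        have : (fun i => a i * (a i)⁻¹) = fun _ => 1 := funext (fun i => mul_inv_cancel₀ (ha i))
        rw [this, diagonal_one, Matrix.mul_one, h.orth']

end Pool.Agent.Q168.SQ
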