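import Pool.Agent.Q168.SQ.Omega

/-!
# A parametrisation of the feasible set by a fixed compact set, depending continuously on `γ`
-/

set_option autoImplicit false

namespace Pool.Agent.Q168.SQ

open Matrix Topology Filter

variable {N : Type*} [Fintype N] [DecidableEq N]

/-- the compact parameter set -/
def KK (σ : Matrix N N ℝ) : Set (Matrix N N ℝ) :=
  {K | Kᵀ = K ∧ σ * K = -(K * σ) ∧ Psd (1 - K) ∧ Psd (1 + K)}

/-- the base point as a function of `B` -/
def base (σ B : Matrix N N ℝ) : Matrix N N ℝ := σᵀ * B * σ - B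

/-- the slack as a function of `B` -/
def slack (σ B : Matrix N N ℝ) : Matrix N N ℝ := 1 - B - σᵀ * B * σ

theorem slack_comm {σ B : Matrix N N ℝ} (hσ : Form σ) : slack σ B * σ = σ * slack σ B := by
  unfold slack
  have e1 : σᵀ * B * σ * σ = -(σᵀ * B) := by
    rw [Matrix.mul_assoc (σᵀ * B), hσ.sq, Matrix.mul_neg, Matrix.mul_one]
  have e2 : σ * (σᵀ * B * σ) = B * σ := by
    rw [Matrix.mul_assoc σᵀ, ← Matrix.mul_assoc σ, hσ.mult, Matrix.one_mul]
  rw [Matrix.sub_mul, Matrix.sub_mul, Matrix.mul_sub, Matrix.mul_sub, e1, e2, Matrix.one_mul,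
    Matrix.mul_one, hσ.skew, Matrix.neg_mul]
  abel

theorem base_symm {σ B : Matrix N N ℝ} (hB : Bᵀ = B) : (base σ B)ᵀ = base σ B := by
  unfold base
  rw [transpose_sub, transpose_mul, transpose_mul, transpose_transpose, hB, Matrix.mul_assoc]

theorem base_anti {σ B : Matrix N N ℝ} (hσ : Form σ) : σ * base σ B = -(base σ B * σ) := by
  unfold base
  rw [Matrix.mul_sub, Matrix.sub_mul]
  have e1 : σ * (σᵀ * B * σ) = B * σ := by
    rw [Matrix.mul_assoc σᵀ, ← Matrix.mul_assoc σ, hσ.mult, Matrix.one_mul]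
  have e2 : σᵀ * B * σ * σ = σ * B := by
    rw [Matrix.mul_assoc (σᵀ * B), hσ.sq, Matrix.mul_neg, Matrix.mul_one, hσ.skew, Matrix.neg_mul, neg_neg]
  rw [e1, e2]
  abel

theorem slack_eq (σ B C : Matrix N N ℝ) :
    1 - (2 : ℝ) • B - C = slack σ B - (C - base σ B) := by
  unfold slack base
  rw [two_smul]
  abel

/-- the parametrised matrices are feasible -/
theorem feas_of_par {σ B K : Matrix N N ℝ} (hσ : Form σ) (hB : Bᵀ = B) (hM : Psd (slack σ B))
    (hK : K ∈ KK σ) : Feas σ B (base σ B + rt (slack σ B) * K * rt (slack σ B)) := by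
  obtain ⟨k1, k2, k3, k4⟩ := hK
  set R := rt (slack σ B) with hR
  have hRp : Psd R := rt_psd hM
  have hRR : R * R = slack σ B := rt_mul hM
  have hRσ : R * σ = σ * R := rt_comm hM (slack_comm hσ)
  refine ⟨?_, ?_, ?_⟩
  · rw [transpose_add, base_symm hB, transpose_mul, transpose_mul, hRp.1, k1, Matrix.mul_assoc]
  · rw [Matrix.mul_add, Matrix.add_mul, base_anti hσ]
    have e : σ * (R * K * R) = -(R * K * R * σ) := by
      calc σ * (R * K * R) = (σ * R) * K * R := by simp only [Matrix.mul_assoc]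
        _ = R * (σ * K) * R := by rw [← hRσ]; simp only [Matrix.mul_assoc]
        _ = -(R * K * (σ * R)) := by
            rw [k2, Matrix.mul_neg, Matrix.neg_mul]; simp only [Matrix.mul_assoc]
        _ = -(R * K * R * σ) := by rw [← hRσ]; simp only [Matrix.mul_assoc]
    rw [e]
    abel
  · rw [slack_eq σ, add_sub_cancel_left, ← hRR]
    have e : R * R - R * K * R = Rᵀ * (1 - K) * R := by
      rw [hRp.1, Matrix.mul_sub, Matrix.sub_mul, Matrix.mul_one]
    rw [e]
    exact k3.conj R

/-- every feasible matrix is parametrised -/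
theorem par_of_feas {σ B C : Matrix N N ℝ} (hσ : Form σ) (hB : Bᵀ = B) (hM : Psd (slack σ B))
    (hC : Feas σ B C) :
    ∃ K ∈ KK σ, C = base σ B + rt (slack σ B) * K * rt (slack σ B) := by
  set M := slack σ B with hMdef
  set D := C - base σ B with hD
  have hDs : Dᵀ = D := by rw [hD, transpose_sub, hC.1, base_symm hB]
  have hDa : σ * D = -(D * σ) := by
    rw [hD, Matrix.mul_sub, Matrix.sub_mul, hC.2.1, base_anti hσ]; abel
  have hMD : Psd (M - D) := by
    have := hC.2.2
    rwa [slack_eq σ, ← hMdef, ← hD] at this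
  have hMσ : M * σ = σ * M := slack_comm hσ
  have hMD' : Psd (M + D) := by
    have h1 := hMD.conj σ
    have h2 : σᵀ * (M - D) * σ = M + D := by
      have e1 : σᵀ * M * σ = M := by rw [Matrix.mul_assoc, hMσ, ← Matrix.mul_assoc, hσ.tmul, Matrix.one_mul]
      have e2 : σᵀ * D * σ = -D := by
        have : D * σ = -(σ * D) := by rw [hDa, neg_neg]
        rw [Matrix.mul_assoc, this, Matrix.mul_neg, ← Matrix.mul_assoc, hσ.tmul, Matrix.one_mul]
      rw [Matrix.mul_sub, Matrix.sub_mul, e1, e2, sub_neg_eq_add]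
    rwa [h2] at h1
  obtain ⟨U, m, hm, hr⟩ := rt_spec hM
  have hmpos := fun k => hm.pos' hM k
  -- the pseudo-inverse of the root
  set P := U * diagonal (fun i => (√(m i))⁻¹) * Uᵀ with hP
  have hPd : Diag U (fun i => (√(m i))⁻¹) P := ⟨hm.orth, rfl⟩
  have hPs : Pᵀ = P := hPd.symm
  have hPσ : P * σ = σ * P := hm.comm_fc hMσ (fun x => (√x)⁻¹)
  -- the entries of `Uᵀ D U` vanish on the kernel
  set E := Uᵀ * D * U with hE
  have hEs : Eᵀ = E := by
    rw [hE, transpose_mul, transpose_mul, transpose_transpose, hDs, Matrix.mul_assoc]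
  have hkey : ∀ j k, m j = 0 → E j k = 0 := by
    intro j k hj
    -- quadratic form on the span of columns `j` and `k`
    have hgen : ∀ t : ℝ, 0 ≤ t ^ 2 * m k - t ^ 2 * E k k - 2 * t * E j k - E j j ∧ 
        0 ≤ t ^ 2 * m k + t ^ 2 * E k k + 2 * t * E j k + E j j := by
      intro t
      by_cases hjk : j = k
      · subst hjk
        have q1 := (hMD.conj U).2 (Pi.single j (1 + t))
        have q2 := (hMD'.conj U).2 (Pi.single j (1 + t))
        have f1 : Uᵀ * (M - D) * U = diagonal m - E := by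
          rw [Matrix.mul_sub, Matrix.sub_mul, hm.conj_eq]
        have f2 : Uᵀ * (M + D) * U = diagonal m + E := by
          rw [Matrix.mul_add, Matrix.add_mul, hm.conj_eq]
        rw [f1] at q1
        rw [f2] at q2
        simp only [mulVec_single, dotProduct_comm (Pi.single j (1 + t)), dotProduct_single] at q1 q2
        simp at q1 q2
        rw [hj] at q1 q2 ⊢
        constructor
        · nlinarith [q1, q2]
        · nlinarith [q1, q2]
      · have q1 := (hMD.conj U).2 (Pi.single j 1 + Pi.single k t)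
        have q2 := (hMD'.conj U).2 (Pi.single j 1 + Pi.single k t)
        have f1 : Uᵀ * (M - D) * U = diagonal m - E := by
          rw [Matrix.mul_sub, Matrix.sub_mul, hm.conj_eq]
        have f2 : Uᵀ * (M + D) * U = diagonal m + E := by
          rw [Matrix.mul_add, Matrix.add_mul, hm.conj_eq]
        rw [f1] at q1
        rw [f2] at q2
        have hkj : E k j = E j k := by
          have := congrFun (congrFun hEs j) k
          rwa [transpose_apply] at this
        simp only [mulVec_add, mulVec_single, add_dotProduct, dotProduct_add, single_dotProduct] at q1 q2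
        simp [hjk, Ne.symm hjk, hkj, hj] at q1 q2
        constructor
        · nlinarith [q1, q2]
        · nlinarith [q1, q2]
    have g0 := hgen 0
    have hjj : E j j = 0 := by
      have h1 := g0.1
      have h2 := g0.2
      linarith
    by_contra hne
    have hpos : 0 < E j k ^ 2 := by positivity
    -- choose small `t` with the sign of `-E j k`
    have hlin : ∀ t : ℝ, 2 * |t * E j k| ≤ t ^ 2 * (m k + |E k k|) := by
      intro t
      obtain ⟨h1, h2⟩ := hgen t
      rw [hjj] at h1 h2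
      have h3 := abs_nonneg (E k k)
      have h4 := neg_abs_le (E k k)
      have h5 := le_abs_self (E k k)
      have h6 := sq_nonneg t
      rcases abs_cases (t * E j k) with ⟨h, _⟩ | ⟨h, _⟩ <;> rw [h] <;> nlinarith
    set c := m k + |E k k| with hc
    have hc0 : 0 ≤ c := add_nonneg (hmpos k) (abs_nonneg _)
    have h7 := hlin (E j k / (c + 1))
    have h8 : |E j k / (c + 1) * E j k| = E j k ^ 2 / (c + 1) := by
      rw [show E j k / (c + 1) * E j k = E j k ^ 2 / (c + 1) by ring]
      exact abs_of_nonneg (by positivity)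
    rw [h8, div_pow] at h7
    have hc1 : 0 < c + 1 := by linarith
    rw [div_mul_eq_mul_div, le_div_iff₀ (by positivity)] at h7
    have h9 : 2 * (E j k ^ 2 / (c + 1)) * (c + 1) ^ 2 = 2 * E j k ^ 2 * (c + 1) := by
      field_simp
    rw [h9] at h7
    nlinarith
  have hkey' : ∀ j k, m k = 0 → E j k = 0 := by
    intro j k hk
    have := congrFun (congrFun hEs j) k
    rw [transpose_apply] at this
    rw [← this]
    exact hkey k j hk
  have hinv : ∀ i, m i ≠ 0 → √(m i) * (√(m i))⁻¹ = 1 := by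
    intro i hi
    apply mul_inv_cancel₀
    exact (Real.sqrt_pos.2 (lt_of_le_of_ne (hmpos i) (Ne.symm hi))).ne'
  -- `R P D P R = D`
  have hRPD : rt M * (P * D * P) * rt M = D := by
    rw [hr.eq, hP]
    set r := diagonal (fun i => √(m i)) with hrdef
    set p := diagonal (fun i => (√(m i))⁻¹) with hpdef
    have e1 : r * p * E * p * r = E := by
      ext j k
      rw [hrdef, hpdef, diagonal_mul_diagonal, Matrix.mul_assoc, diagonal_mul_diagonal, mul_diagonal,
        diagonal_mul]
      by_cases hj : m j = 0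
      · rw [hkey j k hj]; ring
      · by_cases hk : m k = 0
        · rw [hkey' j k hk]; ring
        · rw [hinv j hj, mul_comm ((√(m k))⁻¹), hinv k hk]; ring
    have hUEU : U * E * Uᵀ = D := by
      rw [hE]
      calc U * (Uᵀ * D * U) * Uᵀ = (U * Uᵀ) * D * (U * Uᵀ) := by simp only [Matrix.mul_assoc]
        _ = D := by rw [hm.orth', Matrix.one_mul, Matrix.mul_one]
    calc U * r * Uᵀ * (U * p * Uᵀ * D * (U * p * Uᵀ)) * (U * r * Uᵀ)
        = U * r * (Uᵀ * U) * p * (Uᵀ * D * U) * p * (Uᵀ * U) * r * Uᵀ := by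
          simp only [Matrix.mul_assoc]
      _ = U * (r * p * E * p * r) * Uᵀ := by
          rw [hm.orth, ← hE]; simp only [Matrix.mul_one, Matrix.mul_assoc]
      _ = D := by rw [e1, hUEU]
  have hPMP : ∀ v : N → ℝ, v ⬝ᵥ (Pᵀ * M * P) *ᵥ v ≤ v ⬝ᵥ v := by
    intro v
    have e1 : Diag U (fun i => (√(m i))⁻¹ * m i * (√(m i))⁻¹) (Pᵀ * M * P) := by
      refine ⟨hm.orth, ?_⟩
      rw [hPs, hP, hm.eq]
      calc U * diagonal (fun i => (√(m i))⁻¹) * Uᵀ * (U * diagonal m * Uᵀ) *
            (U * diagonal (fun i => (√(m i))⁻¹) * Uᵀ)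
          = U * diagonal (fun i => (√(m i))⁻¹) * (Uᵀ * U) * diagonal m * (Uᵀ * U) *
            diagonal (fun i => (√(m i))⁻¹) * Uᵀ := by simp only [Matrix.mul_assoc]
        _ = U * (diagonal (fun i => (√(m i))⁻¹) * diagonal m * diagonal (fun i => (√(m i))⁻¹)) * Uᵀ := by
            rw [hm.orth]; simp only [Matrix.mul_one, Matrix.mul_assoc]
        _ = _ := by rw [diagonal_mul_diagonal, diagonal_mul_diagonal]
    rw [qf_expand e1 v, norm_expand hm.orth v]
    refine Finset.sum_le_sum (fun k _ => ?_)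
    have : (√(m k))⁻¹ * m k * (√(m k))⁻¹ ≤ 1 := by
      by_cases hk : m k = 0
      · rw [hk]; simp
      · have h1 := Real.mul_self_sqrt (hmpos k)
        have h2 := hinv k hk
        have : (√(m k))⁻¹ * m k * (√(m k))⁻¹ = (√(m k) * (√(m k))⁻¹) * (√(m k) * (√(m k))⁻¹) := by
          conv_lhs => rw [← h1]
          rw [h1]
          have : (√(m k))⁻¹ * m k * (√(m k))⁻¹ = (√(m k))⁻¹ * (√(m k) * √(m k)) * (√(m k))⁻¹ := by
            rw [h1]
          rw [this]
          ring
        rw [this, h2, one_mul]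
    calc (√(m k))⁻¹ * m k * (√(m k))⁻¹ * (Uᵀ *ᵥ v) k ^ 2 ≤ 1 * (Uᵀ *ᵥ v) k ^ 2 :=
          mul_le_mul_of_nonneg_right this (sq_nonneg _)
      _ = _ := one_mul _
  have hKs : (P * D * P)ᵀ = P * D * P := by
    have h1 : (P * D * P)ᵀ = Pᵀ * (P * D)ᵀ := transpose_mul _ _
    have h2 : (P * D)ᵀ = Dᵀ * Pᵀ := transpose_mul _ _
    rw [h1, h2, hPs, hDs]
    exact (Matrix.mul_assoc P D P).symm
  refine ⟨P * D * P, ⟨hKs, ?_, ?_, ?_⟩, ?_⟩
  · calc σ * (P * D * P) = (σ * P) * D * P := by simp only [Matrix.mul_assoc]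
      _ = P * (σ * D) * P := by rw [← hPσ]; simp only [Matrix.mul_assoc]
      _ = -(P * D * (σ * P)) := by
          rw [hDa, Matrix.mul_neg, Matrix.neg_mul]; simp only [Matrix.mul_assoc]
      _ = -(P * D * P * σ) := by rw [← hPσ]; simp only [Matrix.mul_assoc]
  · refine ⟨by rw [transpose_sub, transpose_one, hKs], fun v => ?_⟩
    rw [qf_sub, qf_one]
    have h1 := (hMD.conj P).2 v
    rw [Matrix.mul_sub, Matrix.sub_mul, qf_sub] at h1
    have h2 := hPMP v
    have h3 : Pᵀ * D * P = P * D * P := by rw [hPs]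
    rw [h3] at h1
    linarith
  · refine ⟨by rw [transpose_add, transpose_one, hKs], fun v => ?_⟩
    rw [qf_add, qf_one]
    have h1 := (hMD'.conj P).2 v
    rw [Matrix.mul_add, Matrix.add_mul, qf_add] at h1
    have h2 := hPMP v
    have h3 : Pᵀ * D * P = P * D * P := by rw [hPs]
    rw [h3] at h1
    linarith
  · rw [hRPD, hD]
    abel

end Pool.Agent.Q168.SQ
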