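import Pool.Agent.Q168.SQ.Cay

/-!
# From the feasible set back to symplectic matrices
-/

set_option autoImplicit false

namespace Pool.Agent.Q168.SQ

open Matrix

variable {N : Type*} [Fintype N] [DecidableEq N]

/-- conjugating by the eigenbasis -/
theorem Diag.conj_eq {U : Matrix N N ℝ} {a : N → ℝ} {A : Matrix N N ℝ} (h : Diag U a A) :
    Uᵀ * A * U = diagonal a := by
  rw [h.eq]
  calc Uᵀ * (U * diagonal a * Uᵀ) * U = (Uᵀ * U) * diagonal a * (Uᵀ * U) := by
        simp only [Matrix.mul_assoc]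
    _ = diagonal a := by rw [h.orth, Matrix.one_mul, Matrix.mul_one]

/-- entries of `Uᵀ X U` when `A X = X A` -/
theorem Diag.comm_entry {U : Matrix N N ℝ} {a : N → ℝ} {A X : Matrix N N ℝ} (h : Diag U a A)
    (hX : A * X = X * A) (j k : N) : a j * (Uᵀ * X * U) j k = (Uᵀ * X * U) j k * a k := by
  have h1 : diagonal a * (Uᵀ * X * U) = (Uᵀ * X * U) * diagonal a := by
    rw [← h.conj_eq]
    calc Uᵀ * A * U * (Uᵀ * X * U) = Uᵀ * A * (U * Uᵀ) * X * U := by simp only [Matrix.mul_assoc]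
      _ = Uᵀ * (A * X) * U := by rw [h.orth', Matrix.mul_one]; simp only [Matrix.mul_assoc]
      _ = Uᵀ * (X * A) * U := by rw [hX]
      _ = Uᵀ * X * (U * Uᵀ) * A * U := by
          rw [h.orth', Matrix.mul_one]; simp only [Matrix.mul_assoc]
      _ = Uᵀ * X * U * (Uᵀ * A * U) := by simp only [Matrix.mul_assoc]
  have h2 := congrFun (congrFun h1 j) k
  rwa [diagonal_mul, mul_diagonal] at h2

/-- functional calculus commutes -/
theorem Diag.comm_fc {U : Matrix N N ℝ} {a : N → ℝ} {A X : Matrix N N ℝ} (h : Diag U a A)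
    (hX : A * X = X * A) (f : ℝ → ℝ) :
    (U * diagonal (fun i => f (a i)) * Uᵀ) * X = X * (U * diagonal (fun i => f (a i)) * Uᵀ) := by
  have h1 : diagonal (fun i => f (a i)) * (Uᵀ * X * U) = (Uᵀ * X * U) * diagonal (fun i => f (a i)) := by
    ext j k
    rw [diagonal_mul, mul_diagonal]
    have := h.comm_entry hX j k
    by_cases hz : (Uᵀ * X * U) j k = 0
    · rw [hz]; ring
    · rw [mul_comm (a j)] at this
      rw [mul_left_cancel₀ hz this, mul_comm]
  calc (U * diagonal (fun i => f (a i)) * Uᵀ) * X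
      = U * (diagonal (fun i => f (a i)) * (Uᵀ * X * U)) * Uᵀ := by
        have : U * (diagonal (fun i => f (a i)) * (Uᵀ * X * U)) * Uᵀ =
          U * diagonal (fun i => f (a i)) * Uᵀ * X * (U * Uᵀ) := by simp only [Matrix.mul_assoc]
        rw [this, h.orth', Matrix.mul_one]
    _ = U * ((Uᵀ * X * U) * diagonal (fun i => f (a i))) * Uᵀ := by rw [h1]
    _ = (U * Uᵀ) * X * (U * diagonal (fun i => f (a i)) * Uᵀ) := by simp only [Matrix.mul_assoc]
    _ = X * (U * diagonal (fun i => f (a i)) * Uᵀ) := by rw [h.orth', Matrix.one_mul]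

/-- entries of `Uᵀ X U` when `A X = - X A` -/
theorem Diag.anti_entry {U : Matrix N N ℝ} {a : N → ℝ} {A X : Matrix N N ℝ} (h : Diag U a A)
    (hX : A * X = -(X * A)) (j k : N) : a j * (Uᵀ * X * U) j k = -((Uᵀ * X * U) j k * a k) := by
  have h1 : diagonal a * (Uᵀ * X * U) = -((Uᵀ * X * U) * diagonal a) := by
    rw [← h.conj_eq]
    calc Uᵀ * A * U * (Uᵀ * X * U) = Uᵀ * A * (U * Uᵀ) * X * U := by simp only [Matrix.mul_assoc]
      _ = Uᵀ * (A * X) * U := by rw [h.orth', Matrix.mul_one]; simp only [Matrix.mul_assoc]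
      _ = -(Uᵀ * (X * A) * U) := by rw [hX, Matrix.mul_neg, Matrix.neg_mul]
      _ = -(Uᵀ * X * (U * Uᵀ) * A * U) := by
          rw [h.orth', Matrix.mul_one]; simp only [Matrix.mul_assoc]
      _ = -(Uᵀ * X * U * (Uᵀ * A * U)) := by simp only [Matrix.mul_assoc]
  have h2 := congrFun (congrFun h1 j) k
  rwa [diagonal_mul, Matrix.neg_apply, mul_diagonal] at h2

/-- bounds for the eigenvalues of feasible matrices -/
theorem Feas.lt_one {σ B C : Matrix N N ℝ} (hB : Pd B) (h : Feas σ B C) : Pd (1 - C) := by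
  have h2B : Pd ((2 : ℝ) • B) := ⟨by rw [transpose_smul, hB.1], fun v hv => by
    rw [qf_smul]
    have := hB.2 v hv
    linarith⟩
  have h1 := h.2.2.add_pd h2B
  have h2 : 1 - (2 : ℝ) • B - C + (2 : ℝ) • B = 1 - C := by abel
  rwa [h2] at h1

theorem Feas.conj_c {σ B C : Matrix N N ℝ} (hσ : Form σ) (h : Feas σ B C) : σᵀ * C * σ = -C := by
  have h1 : C * σ = -(σ * C) := by rw [h.2.1, neg_neg]
  rw [Matrix.mul_assoc, h1, Matrix.mul_neg, ← Matrix.mul_assoc, hσ.tmul, Matrix.one_mul]

theorem Form.mulVec_ne {σ : Matrix N N ℝ} (hσ : Form σ) {v : N → ℝ} (hv : v ≠ 0) : σ *ᵥ v ≠ 0 := by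
  intro h0
  apply hv
  have h1 : σᵀ *ᵥ (σ *ᵥ v) = v := by rw [mulVec_mulVec, hσ.tmul, one_mulVec]
  rw [← h1, h0, mulVec_zero]

theorem Feas.neg_lt {σ B C : Matrix N N ℝ} (hσ : Form σ) (hB : Pd B) (h : Feas σ B C) : Pd (1 + C) := by
  have h0 : Pd (1 - C) := h.lt_one hB
  refine ⟨by rw [transpose_add, h.1, transpose_one], fun v hv => ?_⟩
  have h1 := h0.2 (σ *ᵥ v) (hσ.mulVec_ne hv)
  rw [← qf_conj] at h1
  have h2 : σᵀ * (1 - C) * σ = 1 + C := by
    rw [Matrix.mul_sub, Matrix.sub_mul, Matrix.mul_one, hσ.tmul, h.conj_c hσ, sub_neg_eq_add]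
  rwa [h2] at h1

/-- the eigenvalues of a feasible matrix lie in `(-1, 1)` -/
theorem Feas.mem_Ioo {σ B C U : Matrix N N ℝ} {c : N → ℝ} (hσ : Form σ) (hB : Pd B) (h : Feas σ B C)
    (hd : Diag U c C) (i : N) : c i ∈ Set.Ioo (-1 : ℝ) 1 := by
  constructor
  · have h1 := (hd.affine 1 1).pos (by
      have := h.neg_lt hσ hB
      rwa [one_smul, one_smul]) i
    linarith
  · have h1 := (hd.affine 1 (-1)).pos (by
      have := h.lt_one hB
      rwa [one_smul, neg_one_smul, ← sub_eq_add_neg]) i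
    linarith

/-- the Cayley transform of a number -/
noncomputable def cay (c : ℝ) : ℝ := (1 + c) / (1 - c)

theorem cay_pos {c : ℝ} (hc : c ∈ Set.Ioo (-1 : ℝ) 1) : 0 < cay c :=
  div_pos (by linarith [hc.1]) (by linarith [hc.2])

theorem cay_neg_mul {c d : ℝ} (hc : c ∈ Set.Ioo (-1 : ℝ) 1) (h : c = -d) :
    √(cay c) * √(cay d) = 1 := by
  have hd : cay c * cay d = 1 := by
    have h1 := hc.1
    have h2 := hc.2
    have hd : d = -c := by rw [h, neg_neg]
    unfold cay
    rw [hd]
    have a1 : (1 - c) ≠ 0 := by linarith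
    have a2 : (1 - -c) ≠ 0 := by linarith
    field_simp
    ring
  rw [← Real.sqrt_mul (cay_pos hc).le, hd, Real.sqrt_one]

/-- from the feasible set to symplectic matrices -/
theorem sympl_of_feas {σ γ C U : Matrix N N ℝ} {c : N → ℝ} (hσ : Form σ) (h : IsCov σ γ)
    (hC : Feas σ (γ + 1)⁻¹ C) (hd : Diag U c C) :
    ∃ S, Sympl σ S ∧ Psd (γ - Sᵀ * S) ∧ Diag U (fun i => cay (c i)) (Sᵀ * S) := by
  have hg : Pd (γ + 1) := (cov_psd hσ.skew h).add_one
  have hI := fun i => hC.mem_Ioo hσ hg.inv hd i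
  set g : N → ℝ := fun i => √(cay (c i)) with hgdef
  set S := U * diagonal g * Uᵀ with hS
  have hdS : Diag U g S := ⟨hd.orth, rfl⟩
  have hST : Sᵀ = S := hdS.symm
  have hSS : Sᵀ * S = U * diagonal (fun i => cay (c i)) * Uᵀ := by
    rw [hST, hS]
    calc U * diagonal g * Uᵀ * (U * diagonal g * Uᵀ) = U * diagonal g * (Uᵀ * U) * diagonal g * Uᵀ := by
          simp only [Matrix.mul_assoc]
      _ = U * (diagonal g * diagonal g) * Uᵀ := by rw [hd.orth, Matrix.mul_one]; simp only [Matrix.mul_assoc]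
      _ = U * diagonal (fun i => cay (c i)) * Uᵀ := by
          rw [diagonal_mul_diagonal]
          congr 3
          funext i
          exact Real.mul_self_sqrt (cay_pos (hI i)).le
  have hdP : Diag U (fun i => cay (c i)) (Sᵀ * S) := ⟨hd.orth, hSS⟩
  refine ⟨S, ?_, ?_, hdP⟩
  · -- symplectic
    unfold Sympl
    rw [hST]
    have hanti : C * σ = -(σ * C) := by rw [hC.2.1, neg_neg]
    set W := Uᵀ * σ * U with hW
    have h1 : diagonal g * W * diagonal g = W := by
      ext j k
      rw [mul_diagonal, diagonal_mul]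
      have e := hd.anti_entry hanti j k
      rw [← hW] at e
      by_cases hz : W j k = 0
      · rw [hz]; ring
      · have e1 : c j = - c k := by
          have : W j k * (c j + c k) = 0 := by linarith
          rcases mul_eq_zero.1 this with h | h
          · exact absurd h hz
          · linarith
        have e2 := cay_neg_mul (hI j) e1
        calc g j * W j k * g k = (√(cay (c j)) * √(cay (c k))) * W j k := by rw [hgdef]; ring
          _ = W j k := by rw [e2, one_mul]
    have hUW : U * W * Uᵀ = σ := by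
      rw [hW]
      calc U * (Uᵀ * σ * U) * Uᵀ = (U * Uᵀ) * σ * (U * Uᵀ) := by simp only [Matrix.mul_assoc]
        _ = σ := by rw [hd.orth', Matrix.one_mul, Matrix.mul_one]
    calc S * σ * S = U * (diagonal g * W * diagonal g) * Uᵀ := by
          rw [hS, hW]; simp only [Matrix.mul_assoc]
      _ = σ := by rw [h1, hUW]
  · -- the order
    have hinv : (Sᵀ * S + 1)⁻¹ = ((1 : ℝ) / 2) • (1 - C) := by
      have d1 := hdP.add_one
      have d2 := d1.inv (fun i => by have := cay_pos (hI i); positivity)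
      have d3 := hd.affine (1 / 2) (-(1 / 2))
      have : (fun i => (cay (c i) + 1)⁻¹) = (fun i => 1 / 2 + -(1 / 2) * c i) := by
        funext i
        have h1 := (hI i).1
        have h2 := (hI i).2
        unfold cay
        have a1 : (1 - c i) ≠ 0 := by linarith
        have a2 : (1 + c i) / (1 - c i) + 1 = 2 / (1 - c i) := by field_simp; ring
        rw [a2, inv_div]
        ring
      rw [this] at d2
      rw [d2.eq, ← d3.eq, smul_sub, neg_smul, ← sub_eq_add_neg]
    have hP1 : Pd (Sᵀ * S + 1) := by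
      have : Psd (Sᵀ * S) := ⟨hdP.symm, fun v => by
        have := qf_conj (1 : Matrix N N ℝ) S v
        rw [Matrix.mul_one, one_mulVec] at this
        rw [this]
        exact dot_self_nonneg _⟩
      exact this.add_one
    have key : Psd ((Sᵀ * S + 1)⁻¹ - (γ + 1)⁻¹) := by
      rw [hinv]
      have e1 : ((1 : ℝ) / 2) • (1 - C) - (γ + 1)⁻¹ = ((1 : ℝ) / 2) • (1 - (2 : ℝ) • (γ + 1)⁻¹ - C) := by
        rw [smul_sub, smul_sub, smul_sub, smul_smul]
        norm_num
        abel
      rw [e1]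
      exact hC.2.2.smul (by norm_num)
    have k2 := inv_anti hg.inv hP1.inv key
    rw [nonsing_inv_nonsing_inv _ hg.isUnit_det, nonsing_inv_nonsing_inv _ hP1.isUnit_det] at k2
    have e3 : γ + 1 - (Sᵀ * S + 1) = γ - Sᵀ * S := by abel
    rwa [e3] at k2

end Pool.Agent.Q168.SQ
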