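import Pool.Agent.Q168.SQ.Add

/-!
# The positive semidefinite square root and its continuity
-/

set_option autoImplicit false

namespace Pool.Agent.Q168.SQ

open Matrix Topology Filter

variable {N : Type*} [Fintype N] [DecidableEq N]

/-- the sum of the absolute values of the entries -/
def asum (X : Matrix N N ℝ) : ℝ := ∑ i, ∑ j, |X i j|

omit [DecidableEq N] in
theorem asum_nonneg (X : Matrix N N ℝ) : 0 ≤ asum X :=
  Finset.sum_nonneg (fun _ _ => Finset.sum_nonneg (fun _ _ => abs_nonneg _))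

omit [DecidableEq N] in
theorem sq_le_dot (v : N → ℝ) (i : N) : v i ^ 2 ≤ v ⬝ᵥ v := by
  have := Finset.single_le_sum (f := fun j => v j * v j) (fun j _ => mul_self_nonneg (v j))
    (Finset.mem_univ i)
  simpa [dotProduct, sq] using this

omit [DecidableEq N] in
theorem qf_le_asum (X : Matrix N N ℝ) (v : N → ℝ) : |v ⬝ᵥ X *ᵥ v| ≤ asum X * (v ⬝ᵥ v) := by
  have h1 : v ⬝ᵥ X *ᵥ v = ∑ i, ∑ j, v i * (X i j * v j) := by
    simp only [dotProduct, mulVec, Finset.mul_sum]
  rw [h1, asum, Finset.sum_mul]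
  refine (Finset.abs_sum_le_sum_abs _ _).trans (Finset.sum_le_sum (fun i _ => ?_))
  rw [Finset.sum_mul]
  refine (Finset.abs_sum_le_sum_abs _ _).trans (Finset.sum_le_sum (fun j _ => ?_))
  have h2 : |v i * (X i j * v j)| = |X i j| * (|v i| * |v j|) := by
    rw [abs_mul, abs_mul]; ring
  rw [h2]
  apply mul_le_mul_of_nonneg_left _ (abs_nonneg _)
  have h3 := sq_le_dot v i
  have h4 := sq_le_dot v j
  have h5 := sq_nonneg (|v i| - |v j|)
  have h6 := sq_abs (v i)
  have h7 := sq_abs (v j)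
  nlinarith

/-- entries are bounded by the largest absolute eigenvalue -/
theorem Diag.entry_le {U D : Matrix N N ℝ} {d : N → ℝ} (h : Diag U d D) {t : ℝ} 
    (hd : ∀ k, |d k| ≤ t) (i j : N) : |D i j| ≤ t := by
  have h1 : D i j = ∑ k, U i k * d k * U j k := by
    conv_lhs => rw [h.eq]
    rw [mul_apply]
    refine Finset.sum_congr rfl (fun k _ => ?_)
    rw [mul_diagonal, transpose_apply]
  have r1 := sum_row h.orth' i
  have r2 := sum_row h.orth' j
  have h2 : ∀ k, |U i k * d k * U j k| ≤ t * ((U i k ^ 2 + U j k ^ 2) / 2) := by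
    intro k
    have e : |U i k * d k * U j k| = |d k| * (|U i k| * |U j k|) := by
      rw [abs_mul, abs_mul]; ring
    rw [e]
    apply mul_le_mul (hd k) _ (by positivity) ((abs_nonneg _).trans (hd k))
    have h5 := sq_nonneg (|U i k| - |U j k|)
    have h6 := sq_abs (U i k)
    have h7 := sq_abs (U j k)
    nlinarith
  rw [h1]
  calc |∑ k, U i k * d k * U j k| ≤ ∑ k, |U i k * d k * U j k| := Finset.abs_sum_le_sum_abs _ _
    _ ≤ ∑ k, t * ((U i k ^ 2 + U j k ^ 2) / 2) := Finset.sum_le_sum (fun k _ => h2 k)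
    _ = t := by
        rw [← Finset.mul_sum, ← Finset.sum_div, Finset.sum_add_distrib, r1, r2]
        ring

/-- the eigenvector equation for a column of the eigenbasis -/
theorem Diag.mulVec_col {U D : Matrix N N ℝ} {d : N → ℝ} (h : Diag U d D) (k : N) :
    D *ᵥ (fun i => U i k) = d k • (fun i => U i k) := by
  have e1 : D * U = U * diagonal d := by
    rw [h.eq, Matrix.mul_assoc, h.orth, Matrix.mul_one]
  funext i
  have := congrFun (congrFun e1 i) k
  rw [mul_apply, mul_diagonal] at this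
  simp only [mulVec, dotProduct, Pi.smul_apply, smul_eq_mul]
  rw [this, mul_comm]

theorem Diag.col_dot {U D : Matrix N N ℝ} {d : N → ℝ} (h : Diag U d D) (k : N) :
    (fun i => U i k) ⬝ᵥ (fun i => U i k) = 1 := by
  have := sum_col h.orth k
  simp only [dotProduct]
  rw [← this]
  exact Finset.sum_congr rfl (fun i _ => by rw [sq])

/-- the square root is Hoelder continuous -/
theorem root_close {R S : Matrix N N ℝ} (hR : Psd R) (hS : Psd S) (i j : N) :
    |(R - S) i j| ≤ √(asum (R * R - S * S)) := by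
  have hsym : (R - S)ᵀ = R - S := by rw [transpose_sub, hR.1, hS.1]
  obtain ⟨U, d, hd⟩ := exists_diag hsym
  apply hd.entry_le
  intro k
  set u : N → ℝ := fun i => U i k with hu
  have hu1 : u ⬝ᵥ u = 1 := hd.col_dot k
  have hDu : (R - S) *ᵥ u = d k • u := hd.mulVec_col k
  have e1 : u ⬝ᵥ (R * R - S * S) *ᵥ u = d k * (u ⬝ᵥ R *ᵥ u + u ⬝ᵥ S *ᵥ u) := by
    have h1 : R * R - S * S = R * (R - S) + (R - S) * S := by
      rw [Matrix.mul_sub, Matrix.sub_mul]; abel
    rw [h1, qf_add, ← mulVec_mulVec, ← mulVec_mulVec, hDu]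
    have h2 : u ⬝ᵥ (R - S) *ᵥ (S *ᵥ u) = d k * (u ⬝ᵥ S *ᵥ u) := by
      rw [sym_move hsym u (S *ᵥ u), hDu, dotProduct_smul, smul_eq_mul, dotProduct_comm]
    rw [h2, mulVec_smul, dotProduct_smul, smul_eq_mul]
    ring
  have e2 : u ⬝ᵥ R *ᵥ u - u ⬝ᵥ S *ᵥ u = d k := by
    rw [← qf_sub, hDu, dotProduct_smul, hu1, smul_eq_mul, mul_one]
  have p1 := hR.2 u
  have p2 := hS.2 u
  have e3 : |d k| ≤ u ⬝ᵥ R *ᵥ u + u ⬝ᵥ S *ᵥ u := by
    rw [abs_le]; constructor <;> linarith
  have e4 := qf_le_asum (R * R - S * S) u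
  rw [hu1, mul_one, e1, abs_mul, abs_of_nonneg (add_nonneg p1 p2)] at e4
  have e5 : |d k| * |d k| ≤ asum (R * R - S * S) :=
    (mul_le_mul_of_nonneg_left e3 (abs_nonneg _)).trans e4
  apply Real.le_sqrt_of_sq_le
  rw [sq]
  exact e5

/-- the positive semidefinite square root -/
noncomputable def rt (A : Matrix N N ℝ) : Matrix N N ℝ :=
  open Classical in if hA : A.IsHermitian then
    (hA.eigenvectorUnitary : Matrix N N ℝ) * diagonal (fun i => √(hA.eigenvalues i)) *
      (hA.eigenvectorUnitary : Matrix N N ℝ)ᵀ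
  else 0

theorem Diag.pos' {U A : Matrix N N ℝ} {a : N → ℝ} (h : Diag U a A) (hA : Psd A) (k : N) :
    0 ≤ a k := by
  have h1 := hA.2 (fun i => U i k)
  rw [h.mulVec_col k, dotProduct_smul, h.col_dot k, smul_eq_mul, mul_one] at h1
  exact h1

theorem Diag.psd_of {U A : Matrix N N ℝ} {a : N → ℝ} (h : Diag U a A) (ha : ∀ k, 0 ≤ a k) : Psd A :=
  ⟨h.symm, fun v => by
    rw [qf_expand h v]
    exact Finset.sum_nonneg (fun k _ => mul_nonneg (ha k) (sq_nonneg _))⟩

/-- the square root via a diagonalisation -/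
theorem rt_spec {A : Matrix N N ℝ} (hA : Psd A) :
    ∃ (U : Matrix N N ℝ) (a : N → ℝ), Diag U a A ∧ Diag U (fun i => √(a i)) (rt A) := by
  have h : A.IsHermitian := herm_iff.2 hA.1
  refine ⟨_, _, diag_eigen h, (diag_eigen h).orth, ?_⟩
  unfold rt
  rw [dif_pos h]

theorem rt_psd {A : Matrix N N ℝ} (hA : Psd A) : Psd (rt A) := by
  obtain ⟨U, a, h1, h2⟩ := rt_spec hA
  exact h2.psd_of (fun k => Real.sqrt_nonneg _)

theorem rt_mul {A : Matrix N N ℝ} (hA : Psd A) : rt A * rt A = A := by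
  obtain ⟨U, a, h1, h2⟩ := rt_spec hA
  rw [h2.eq, h1.eq]
  calc U * diagonal (fun i => √(a i)) * Uᵀ * (U * diagonal (fun i => √(a i)) * Uᵀ)
      = U * diagonal (fun i => √(a i)) * (Uᵀ * U) * diagonal (fun i => √(a i)) * Uᵀ := by
        simp only [Matrix.mul_assoc]
    _ = U * (diagonal (fun i => √(a i)) * diagonal (fun i => √(a i))) * Uᵀ := by
        rw [h1.orth, Matrix.mul_one]; simp only [Matrix.mul_assoc]
    _ = U * diagonal a * Uᵀ := by
        rw [diagonal_mul_diagonal]
        congr 3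
        funext i
        exact Real.mul_self_sqrt (h1.pos' hA i)

theorem rt_comm {A X : Matrix N N ℝ} (hA : Psd A) (hX : A * X = X * A) : rt A * X = X * rt A := by
  obtain ⟨U, a, h1, h2⟩ := rt_spec hA
  rw [h2.eq]
  exact h1.comm_fc hX Real.sqrt

omit [DecidableEq N] in
theorem asum_cont : Continuous (asum : Matrix N N ℝ → ℝ) := by
  unfold asum
  fun_prop

/-- continuity of the square root -/
theorem rt_cont : ContinuousOn (rt : Matrix N N ℝ → Matrix N N ℝ) {A | Psd A} := by
  intro A hA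
  unfold ContinuousWithinAt
  refine tendsto_pi_nhds.2 (fun i => tendsto_pi_nhds.2 (fun j => ?_))
  rw [tendsto_iff_dist_tendsto_zero]
  have h0 : Tendsto (fun X : Matrix N N ℝ => √(asum (X - A))) (𝓝[{A | Psd A}] A) (𝓝 0) := by
    have h1 : Continuous (fun X : Matrix N N ℝ => √(asum (X - A))) :=
      Real.continuous_sqrt.comp (asum_cont.comp (continuous_id.sub continuous_const))
    have h2 := h1.tendsto A
    have h3 : √(asum (A - A)) = 0 := by
      rw [sub_self]
      simp [asum]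
    rw [h3] at h2
    exact h2.mono_left nhdsWithin_le_nhds
  apply squeeze_zero' _ _ h0
  · exact Filter.Eventually.of_forall (fun X => dist_nonneg)
  · filter_upwards [self_mem_nhdsWithin] with X hX
    have h1 := root_close (rt_psd hX) (rt_psd hA) i j
    rw [rt_mul hX, rt_mul hA] at h1
    rw [Real.dist_eq]
    exact h1

end Pool.Agent.Q168.SQ
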