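import Pool.Agent.Q168.SQ.Rev

/-!
# Singular values of symplectic matrices
-/

set_option autoImplicit false

namespace Pool.Agent.Q168.SQ

open Matrix

variable {N : Type*} [Fintype N] [DecidableEq N]

theorem eig_congr {m : ℕ} {T T' : EuclideanSpace ℝ N →ₗ[ℝ] EuclideanSpace ℝ N} (h : T = T')
    (hT : T.IsSymmetric) (hT' : T'.IsSymmetric) (hn : Module.finrank ℝ (EuclideanSpace ℝ N) = m)
    (i : Fin m) : hT.eigenvalues hn i = hT'.eigenvalues hn i := by
  subst h
  rfl

/-- the squares of the singular values are the eigenvalues of `Sᵀ S` in decreasing order -/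
theorem sv_eq (S : Matrix N N ℝ) (hA : (Sᵀ * S).IsHermitian) (i : Fin (Fintype.card N)) :
    (toEuclideanLin S).singularValues i = √(hA.eigenvalues₀ i) := by
  have hEq : LinearMap.adjoint (toEuclideanLin S) ∘ₗ toEuclideanLin S = toEuclideanLin (Sᵀ * S) := by
    rw [← Matrix.toEuclideanLin_conjTranspose_eq_adjoint, conjTranspose_eq_transpose_of_trivial]
    apply LinearMap.ext
    intro x
    simp [Matrix.toEuclideanLin, Matrix.mulVec_mulVec]
  have h1 := LinearMap.singularValues_fin (toEuclideanLin S) (finrank_euclideanSpace (𝕜 := ℝ) (ι := N)) i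
  have h2 : hA.eigenvalues₀ i =
      (LinearMap.isSymmetric_adjoint_comp_self (toEuclideanLin S)).eigenvalues finrank_euclideanSpace i :=
    (eig_congr hEq (LinearMap.isSymmetric_adjoint_comp_self (toEuclideanLin S))
      (isSymmetric_toEuclideanLin_iff.mpr hA) finrank_euclideanSpace i).symm
  rw [h1, h2]

theorem sum_eig0 (A : Matrix N N ℝ) (hA : A.IsHermitian) (f : ℝ → ℝ) :
    ∑ i, f (hA.eigenvalues₀ i) = ∑ i, f (hA.eigenvalues i) := by
  unfold Matrix.IsHermitian.eigenvalues
  rw [← Equiv.sum_comp (Fintype.equivOfCardEq (Fintype.card_fin (Fintype.card N))).symm]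

/-- the combinatorial half sum lemma -/
theorem half_sum {n : ℕ} (l : Fin (n + n) → ℝ) (anti : Antitone l) (pos : ∀ i, 0 < l i)
    (hs : ∀ φ : ℝ → ℝ, ∑ i, φ (l i) = ∑ i, φ (l i)⁻¹) :
    ∑ i : Fin n, Real.log (l (Fin.castAdd n i)) = 1 / 2 * ∑ i, |Real.log (l i)| := by
  classical
  set a := (Finset.univ.filter (fun i => 1 < l i)).card with ha
  set b := (Finset.univ.filter (fun i => l i < 1)).card with hb
  have hab : a = b := by
    have h := hs (fun x => if 1 < x then 1 else 0)
    have h1 : ∑ i, (if 1 < l i then (1 : ℝ) else 0) = (a : ℝ) := by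
      rw [Finset.sum_ite, Finset.sum_const_zero, add_zero, Finset.sum_const, nsmul_eq_mul, mul_one]
    have h2 : ∑ i, (if 1 < (l i)⁻¹ then (1 : ℝ) else 0) = (b : ℝ) := by
      rw [Finset.sum_ite, Finset.sum_const_zero, add_zero, Finset.sum_const, nsmul_eq_mul, mul_one, hb]
      congr 2
      ext i
      simp only [Finset.mem_filter, Finset.mem_univ, true_and]
      exact one_lt_inv₀ (pos i)
    have h3 : (a : ℝ) = b := by
      rw [← h1, ← h2]; exact h
    exact_mod_cast h3
  have hsum : a + b ≤ n + n := by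
    have h1 : Disjoint (Finset.univ.filter (fun i => 1 < l i)) (Finset.univ.filter (fun i => l i < 1)) := by
      rw [Finset.disjoint_filter]
      intro i _ h1 h2
      exact absurd h1 (not_lt.2 h2.le)
    rw [ha, hb, ← Finset.card_union_of_disjoint h1]
    calc _ ≤ (Finset.univ : Finset (Fin (n + n))).card := Finset.card_le_card (Finset.subset_univ _)
      _ = n + n := by rw [Finset.card_univ, Fintype.card_fin]
  have hlow : ∀ i : Fin (n + n), i.val < n → 1 ≤ l i := by
    intro i hi
    by_contra hlt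
    push Not at hlt
    have hsub : Finset.Ici i ⊆ Finset.univ.filter (fun i => l i < 1) := by
      intro j hj
      rw [Finset.mem_Ici] at hj
      rw [Finset.mem_filter]
      exact ⟨Finset.mem_univ _, (anti hj).trans_lt hlt⟩
    have hc := Finset.card_le_card hsub
    rw [Fin.card_Ici] at hc
    omega
  have hhigh : ∀ i : Fin (n + n), n ≤ i.val → l i ≤ 1 := by
    intro i hi
    by_contra hlt
    push Not at hlt
    have hsub : Finset.Iic i ⊆ Finset.univ.filter (fun i => 1 < l i) := by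
      intro j hj
      rw [Finset.mem_Iic] at hj
      rw [Finset.mem_filter]
      exact ⟨Finset.mem_univ _, hlt.trans_le (anti hj)⟩
    have hc := Finset.card_le_card hsub
    rw [Fin.card_Iic] at hc
    omega
  have e1 : ∑ i, max (Real.log (l i)) 0 = ∑ i : Fin n, Real.log (l (Fin.castAdd n i)) := by
    rw [Fin.sum_univ_add]
    have z1 : ∑ i : Fin n, max (Real.log (l (Fin.natAdd n i))) 0 = 0 := by
      apply Finset.sum_eq_zero
      intro i _
      apply max_eq_right
      exact Real.log_nonpos (pos _).le (hhigh _ (by simp))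
    rw [z1, add_zero]
    refine Finset.sum_congr rfl (fun i _ => ?_)
    apply max_eq_left
    exact Real.log_nonneg (hlow _ (by simp))
  have e2 : ∑ i, max (-Real.log (l i)) 0 = ∑ i, max (Real.log (l i)) 0 := by
    have h := hs (fun x => max (Real.log x) 0)
    simp only [Real.log_inv] at h
    exact h.symm
  have e3 : ∑ i, |Real.log (l i)| = ∑ i, max (Real.log (l i)) 0 + ∑ i, max (-Real.log (l i)) 0 := by
    rw [← Finset.sum_add_distrib]
    refine Finset.sum_congr rfl (fun i _ => ?_)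
    rcases le_total 0 (Real.log (l i)) with h | h
    · rw [abs_of_nonneg h, max_eq_left h, max_eq_right (by linarith), add_zero]
    · rw [abs_of_nonpos h, max_eq_right h, max_eq_left (by linarith), zero_add]
  rw [e3, e2, e1]
  ring

/-- the function `|log ((1+c)/(1-c))| / 4` -/
noncomputable def hh (c : ℝ) : ℝ := |Real.log (cay c)| / 4

/-- for symplectic `S` the eigenvalues of `Sᵀ S` come in pairs `λ, 1/λ` -/
theorem recip_sum {σ S : Matrix N N ℝ} (hσ : Form σ) (hS : Sympl σ S) {U : Matrix N N ℝ} {a : N → ℝ}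
    (hd : Diag U a (Sᵀ * S)) (f : ℝ → ℝ) : ∑ i, f (a i) = ∑ i, f (a i)⁻¹ := by
  have hP := hσ.pd hS
  have hpos := fun i => hd.pos hP i
  have hd2 := hd.inv (fun i => (hpos i).ne')
  -- `P = σ P⁻¹ σᵀ`
  have hPP := hσ.pp hS
  have h1 : Sᵀ * S = σ * (Sᵀ * S)⁻¹ * σᵀ := by
    have e1 : (Sᵀ * S) * σ = σ * (Sᵀ * S)⁻¹ := by
      calc (Sᵀ * S) * σ = (Sᵀ * S) * σ * ((Sᵀ * S) * (Sᵀ * S)⁻¹) := by rw [hP.mul_inv, Matrix.mul_one]
        _ = ((Sᵀ * S) * σ * (Sᵀ * S)) * (Sᵀ * S)⁻¹ := by simp only [Matrix.mul_assoc]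
        _ = σ * (Sᵀ * S)⁻¹ := by rw [hPP]
    rw [← e1, Matrix.mul_assoc (Sᵀ * S), hσ.mult, Matrix.mul_one]
  have hd3 : Diag (σ * U) (fun i => (a i)⁻¹) (Sᵀ * S) := by
    refine ⟨?_, ?_⟩
    · rw [transpose_mul]
      calc Uᵀ * σᵀ * (σ * U) = Uᵀ * (σᵀ * σ) * U := by simp only [Matrix.mul_assoc]
        _ = 1 := by rw [hσ.tmul, Matrix.mul_one, hd.orth]
    · rw [transpose_mul]
      conv_lhs => rw [h1, hd2.eq]
      simp only [Matrix.mul_assoc]
  exact phi_sum hd hd3 f

/-- the value of the objective function -/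
theorem val_of_sympl {n : ℕ} (hN : Fintype.card N = n + n) {σ S : Matrix N N ℝ} (hσ : Form σ)
    (hS : Sympl σ S) {U : Matrix N N ℝ} {a : N → ℝ} (hd : Diag U a (Sᵀ * S)) :
    ∑ i ∈ Finset.range n, Real.log ((toEuclideanLin S).singularValues i) =
      ∑ i, |Real.log (a i)| / 4 := by
  have hA : (Sᵀ * S).IsHermitian := herm_iff.2 (by rw [transpose_mul, transpose_transpose])
  have hP := hσ.pd hS
  have hde := diag_eigen hA
  have hpos := fun i => hde.pos hP i
  set l : Fin (n + n) → ℝ := fun i => hA.eigenvalues₀ (Fin.cast hN.symm i) with hl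
  have hsum : ∀ f : ℝ → ℝ, ∑ i, f (l i) = ∑ i, f (a i) := by
    intro f
    rw [phi_sum hd hde f, ← sum_eig0 _ hA f]
    rw [hl]
    exact Equiv.sum_comp (finCongr hN.symm) (fun i => f (hA.eigenvalues₀ i))
  have hlpos : ∀ i, 0 < l i := by
    intro i
    have := hpos ((Fintype.equivOfCardEq (Fintype.card_fin _)) (Fin.cast hN.symm i))
    unfold Matrix.IsHermitian.eigenvalues at this
    rwa [Equiv.symm_apply_apply] at this
  have hanti : Antitone l := by
    intro i j hij
    exact hA.eigenvalues₀_antitone (by simpa using hij)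
  have key := half_sum l hanti hlpos (fun φ => by
    rw [hsum φ, hsum (fun x => φ x⁻¹)]
    exact recip_sum hσ hS hd φ)
  rw [Finset.sum_range]
  have e1 : ∀ i : Fin n, Real.log ((toEuclideanLin S).singularValues (i : ℕ)) =
      1 / 2 * Real.log (l (Fin.castAdd n i)) := by
    intro i
    have h1 := sv_eq S hA (Fin.cast hN.symm (Fin.castAdd n i))
    have h2 : ((Fin.cast hN.symm (Fin.castAdd n i) : Fin (Fintype.card N)) : ℕ) = (i : ℕ) := by simp
    rw [h2] at h1
    rw [h1, Real.log_sqrt (hlpos _).le]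
    ring
  rw [Finset.sum_congr rfl (fun i _ => e1 i), ← Finset.mul_sum, key, hsum (fun x => |Real.log x|),
    ← Finset.sum_div]
  ring

/-- the set over which the infimum in `G` is taken, in terms of feasible matrices -/
theorem set_eq {n : ℕ} (hN : Fintype.card N = n + n) {σ γ : Matrix N N ℝ} (hσ : Form σ)
    (h : IsCov σ γ) :
    {x : ℝ | ∃ S : Matrix N N ℝ, Sympl σ S ∧ (γ - Sᵀ * S).PosSemidef ∧
      x = ∑ i ∈ Finset.range n, Real.log ((toEuclideanLin S).singularValues i)} =
    {x : ℝ | ∃ C : Matrix N N ℝ, Feas σ (γ + 1)⁻¹ C ∧ x = trf hh C} := by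
  ext x
  constructor
  · rintro ⟨S, hS, hle, rfl⟩
    refine ⟨1 - (2 : ℝ) • (Sᵀ * S + 1)⁻¹, feas_of_sympl hσ h hS (psd_iff.1 hle), ?_⟩
    have hP := hσ.pd hS
    obtain ⟨U, a, hd⟩ := exists_diag (A := Sᵀ * S) hP.1
    have hpos := fun i => hd.pos hP i
    rw [val_of_sympl hN hσ hS hd]
    have d1 := hd.add_one.inv (fun i => by have := hpos i; positivity)
    have d2 := d1.affine 1 (-2)
    rw [one_smul, neg_smul, ← sub_eq_add_neg] at d2
    rw [trf_eq d2]
    refine Finset.sum_congr rfl (fun i _ => ?_)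
    unfold hh
    congr 3
    unfold cay
    have h1 := hpos i
    have h2 : a i + 1 ≠ 0 := by positivity
    field_simp
    ring
  · rintro ⟨C, hC, rfl⟩
    obtain ⟨U, c, hd⟩ := exists_diag hC.1
    obtain ⟨S, hS, hle, hdS⟩ := sympl_of_feas hσ h hC hd
    refine ⟨S, hS, psd_iff.2 hle, ?_⟩
    rw [val_of_sympl hN hσ hS hdS, trf_eq hd]
    rfl

end Pool.Agent.Q168.SQ
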